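import Pool.Agent.Y282.WD.Deg
import Pool.Agent.Y151.WD.Tail
import Pool.Agent.Y811.WD.Back
import Pool.Agent.Y888.WD.Near

/-!
The distance of an integer to the Julia set of `f₀`: covering discs.
-/

set_option autoImplicit false

open Filter Topology Metric Set

namespace Pool.Agent.Q74.SZ

open Pool.Agent.H384R2.Fatou Pool.Agent.H723R2.LSW Pool.Agent.Y282.WD

theorem bt_T_ge (m : ℤ) : bt m / 3 ≤ bt (T m) := by
  have := (Pool.Agent.Y151.WD.t_TAIL.1 m).2.2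
  linarith

theorem bt_one (m : ℤ) : 1 < bt m := (Pool.Agent.Y151.WD.t_TAIL.1 m).1

theorem bt_iter_ge (m : ℤ) (j : ℕ) : bt m / 3 ^ j ≤ bt (T^[j] m) := by
  induction j with
  | zero => simp
  | succ j ih =>
    rw [Function.iterate_succ_apply', pow_succ, ← div_div]
    have := bt_T_ge (T^[j] m)
    linarith

theorem fatou_iff (z : ℂ) : f₀ z ∈ FatouSet f₀ ↔ z ∈ FatouSet f₀ :=
  ⟨Pool.Agent.Y811.WD.t_BACK z, fatou_forward f₀_open⟩

theorem fatou_iter_iff (z : ℂ) (k : ℕ) : f₀^[k] z ∈ FatouSet f₀ ↔ z ∈ FatouSet f₀ := by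
  induction k with
  | zero => exact Iff.rfl
  | succ k ih => rw [Function.iterate_succ_apply', fatou_iff, ih]

/-- covering a disc -/
theorem cover {m : ℤ} {κ s : ℝ} (hκ : 0 < κ) (hs : 0 ≤ s)
    (h : ∀ z : ℂ, ‖z - m‖ ≤ s → κ * ‖z - m‖ ^ 2 ≤ ‖f₀ z - (T m : ℂ)‖)
    (hF : ball (m : ℂ) s ⊆ FatouSet f₀) : ball ((T m : ℤ) : ℂ) (κ * s ^ 2) ⊆ FatouSet f₀ := by
  intro y hy
  rw [mem_ball, dist_eq_norm] at hy
  set d := ‖y - ((T m : ℤ) : ℂ)‖ with hd
  have hd0 : 0 ≤ d := norm_nonneg _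
  have hspos : 0 < s := by
    rcases hs.eq_or_lt with h0 | h0
    · rw [← h0] at hy
      simp at hy
      linarith
    · exact h0
  set s' := Real.sqrt ((d / κ + s ^ 2) / 2) with hs'
  have hdk : d / κ < s ^ 2 := by
    rw [div_lt_iff₀ hκ]; linarith
  have hdk0 : 0 ≤ d / κ := div_nonneg hd0 hκ.le
  have hsq : s' ^ 2 = (d / κ + s ^ 2) / 2 := Real.sq_sqrt (by positivity)
  have hs'0 : 0 ≤ s' := Real.sqrt_nonneg _
  have hs's : s' < s := by
    apply lt_of_pow_lt_pow_left₀ 2 hs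
    rw [hsq]; linarith
  have hdlt : d < κ * s' ^ 2 := by
    rw [hsq]
    have h1 : d = κ * (d / κ) := by field_simp
    nlinarith
  have hs'pos : 0 < s' := by
    rcases hs'0.eq_or_lt with h0 | h0
    · rw [← h0] at hdlt
      simp at hdlt
      linarith
    · exact h0
  have hVo : IsOpen (f₀ '' ball (m : ℂ) s') := f₀_open _ isOpen_ball
  have hcl : closure (f₀ '' ball (m : ℂ) s') ⊆ f₀ '' closedBall (m : ℂ) s' := by
    apply closure_minimal (image_mono ball_subset_closedBall)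
    exact ((isCompact_closedBall _ _).image f₀_differentiable.continuous).isClosed
  have hW : IsPreconnected (ball ((T m : ℤ) : ℂ) (κ * s' ^ 2)) := (convex_ball _ _).isPreconnected
  have hy' : y ∈ ball ((T m : ℤ) : ℂ) (κ * s' ^ 2) := by
    rw [mem_ball, dist_eq_norm]; exact hdlt
  have hmem : y ∈ f₀ '' ball (m : ℂ) s' := by
    by_contra hcon
    have hsub : ball ((T m : ℤ) : ℂ) (κ * s' ^ 2) ⊆
        f₀ '' ball (m : ℂ) s' ∪ (closure (f₀ '' ball (m : ℂ) s'))ᶜ := by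
      intro w hw
      by_contra hw'
      rw [Set.mem_union, not_or, Set.notMem_compl_iff] at hw'
      obtain ⟨x, hx, rfl⟩ := hcl hw'.2
      rw [mem_closedBall, dist_eq_norm] at hx
      rw [mem_ball, dist_eq_norm] at hw
      have h1 : ‖x - m‖ = s' := by
        rcases hx.lt_or_eq with h1 | h1
        · exact absurd ⟨x, by rw [mem_ball, dist_eq_norm]; exact h1, rfl⟩ hw'.1
        · exact h1
      have h2 := h x (by rw [h1]; exact hs's.le)
      rw [h1] at h2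
      linarith
    have hyc : y ∈ (closure (f₀ '' ball (m : ℂ) s'))ᶜ := by
      rcases hsub hy' with h1 | h1
      · exact absurd h1 hcon
      · exact h1
    have hTm : ((T m : ℤ) : ℂ) ∈ f₀ '' ball (m : ℂ) s' := ⟨m, mem_ball_self hs'pos, f₀_int m⟩
    obtain ⟨w, -, hw1, hw2⟩ := hW _ _ hVo isClosed_closure.isOpen_compl hsub
      ⟨_, mem_ball_self (by positivity), hTm⟩ ⟨y, hy', hyc⟩
    exact hw2 (subset_closure hw1)
  obtain ⟨x, hx, rfl⟩ := hmem
  exact (fatou_iff x).2 (hF (ball_subset_ball hs's.le hx))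

/-- no disc of radius larger than one about an integer `≠ -2` is in the Fatou set -/
theorem no_disc {m : ℤ} (hm : m ≠ -2) {s : ℝ} (hs : 1 < s) : ¬ ball (m : ℂ) s ⊆ FatouSet f₀ := by
  intro h
  obtain ⟨x, h1, h2, h3⟩ := jul_all hm
  apply h3
  apply h
  rw [mem_ball, dist_eq_norm]
  have : ((x : ℂ) - (m : ℂ)) = ((x - m : ℝ) : ℂ) := by push_cast; ring
  rw [this, Complex.norm_real, Real.norm_eq_abs, abs_lt]
  constructor <;> linarith

theorem ne_neg_two {m : ℤ} (h : 5 ≤ bt m) : m ≠ -2 := by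
  rintro rfl
  unfold bt at h
  have h1 : |(((-2 : ℤ)) : ℝ) + 1 / 2| = 3 / 2 := by
    push_cast
    rw [show (-2 : ℝ) + 1 / 2 = -(3 / 2) by norm_num, abs_neg, abs_of_pos (by norm_num)]
  rw [h1] at h
  have := Real.pi_lt_d2
  have := Real.pi_pos
  nlinarith

/-- constants for the growth -/
theorem consts : ∃ A C1 B c : ℝ, 6 ≤ A ∧ 1 ≤ C1 ∧ A ≤ B ∧ 0 < c ∧ 6 / c ≤ A ∧
    (∀ (m : ℤ) (z : ℂ), A ≤ bt m → ‖z - m‖ ≤ A / bt m →
      (1 - C1 / bt m ^ 2) * (bt m * ‖z - m‖ ^ 2) ≤ ‖f₀ z - (T m : ℂ)‖ ∧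
      ‖f₀ z - (T m : ℂ)‖ ≤ (1 + C1 / bt m ^ 2) * (bt m * ‖z - m‖ ^ 2)) ∧
    (∀ m : ℤ, B ≤ bt m → ∀ z : ℂ, ‖z - m‖ ≤ 1 / 2 → c * bt m * ‖z - m‖ ^ 2 ≤ ‖f₀ z - (T m : ℂ)‖) := by
  obtain ⟨c, hc, N, hlow⟩ := Pool.Agent.Y888.WD.t_LOW
  obtain ⟨C1, hC1, hrel⟩ := rel Pool.Agent.Y888.WD.t_NEAR (A := max 6 (6 / c))
    (lt_of_lt_of_le (by norm_num) (le_max_left _ _))
  exact ⟨max 6 (6 / c), C1, max (max 6 (6 / c)) N, c, le_max_left _ _, hC1, le_max_left _ _, hc,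
    le_max_right _ _, hrel, fun m hm z hz => (hlow m ((le_max_right _ _).trans hm) z hz).1⟩

end Pool.Agent.Q74.SZ
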