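import Pool.Agent.Q74.SZ.Cover

/-!
The distance of an integer `n` to the Julia set of `f₀` is asymptotic to `ρ(n)`.
-/

set_option autoImplicit false

open Filter Topology Metric Set

namespace Pool.Agent.Q74.SZ

open Pool.Agent.H384R2.Fatou Pool.Agent.H723R2.LSW Pool.Agent.Y282.WD

/-- the disc of radius `1/2` about a large integer is not in the Fatou set -/
theorem half {B c : ℝ} (hc : 0 < c)
    (low : ∀ m : ℤ, B ≤ bt m → ∀ z : ℂ, ‖z - m‖ ≤ 1 / 2 →
      c * bt m * ‖z - m‖ ^ 2 ≤ ‖f₀ z - (T m : ℂ)‖)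
    {m : ℤ} (hm : max B (max (8 / c) 15) ≤ bt m) : ¬ ball (m : ℂ) (1 / 2) ⊆ FatouSet f₀ := by
  intro h
  have hB : B ≤ bt m := (le_max_left _ _).trans hm
  have h8 : 8 / c ≤ bt m := ((le_max_left _ _).trans (le_max_right _ _)).trans hm
  have h15 : 15 ≤ bt m := ((le_max_right _ _).trans (le_max_right _ _)).trans hm
  have hb : 0 < bt m := by linarith
  have h1 := cover (m := m) (κ := c * bt m) (s := 1 / 2) (by positivity) (by norm_num)
    (fun z hz => low m hB z hz) h
  rw [div_le_iff₀ hc] at h8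
  refine no_disc (ne_neg_two ?_) ?_ h1
  · have := bt_T_ge m
    linarith
  · nlinarith

theorem phase2 {A B c : ℝ} (hc : 0 < c) (hA : 6 / c ≤ A) (hA6 : 6 ≤ A)
    (low : ∀ m : ℤ, B ≤ bt m → ∀ z : ℂ, ‖z - m‖ ≤ 1 / 2 →
      c * bt m * ‖z - m‖ ^ 2 ≤ ‖f₀ z - (T m : ℂ)‖) :
    ∃ N₀ : ℝ, ∀ n : ℤ, N₀ ≤ bt n → ¬ ball (n : ℂ) (A / bt n) ⊆ FatouSet f₀ := by
  set B₁ := max B (max (8 / c) 15) with hB₁
  have hB15 : 15 ≤ B₁ := (le_max_right _ _).trans (le_max_right _ _)
  set B' := 3 * B₁ with hB'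
  obtain ⟨J, hJ⟩ : ∃ J : ℕ, c / 6 * B' < 2 ^ (2 ^ J) := by
    obtain ⟨J, hJ⟩ := pow_unbounded_of_one_lt (c / 6 * B') (show (1 : ℝ) < 2 by norm_num)
    refine ⟨J, hJ.trans_le ?_⟩
    exact pow_le_pow_right₀ (by norm_num) (Nat.lt_two_pow_self).le
  refine ⟨max (3 ^ J * B') (2 * A), fun n hn hF => ?_⟩
  have hn1 : 3 ^ J * B' ≤ bt n := (le_max_left _ _).trans hn
  have hn2 : 2 * A ≤ bt n := (le_max_right _ _).trans hn
  have hb : 0 < bt n := by linarith
  have claim : ∀ j : ℕ, (∀ i < j, B' ≤ bt (T^[i] n)) → ∃ s : ℝ, 0 ≤ s ∧ s ≤ 1 / 2 ∧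
      ball ((T^[j] n : ℤ) : ℂ) s ⊆ FatouSet f₀ ∧ (2 : ℝ) ^ (2 ^ j) ≤ c / 3 * bt (T^[j] n) * s := by
    intro j
    induction j with
    | zero =>
      intro _
      refine ⟨A / bt n, by positivity, ?_, hF, ?_⟩
      · rw [div_le_iff₀ hb]; linarith
      · simp only [pow_zero, pow_one, Function.iterate_zero, id_eq]
        rw [div_le_iff₀ hc] at hA
        have e : c / 3 * bt n * (A / bt n) = A * c / 3 := by field_simp
        rw [e]; linarith
    | succ j ih =>
      intro hi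
      obtain ⟨s, hs0, hs1, hsF, hs2⟩ := ih fun i hij => hi i (by omega)
      have hm := hi j (by omega)
      set m := T^[j] n with hmdef
      have hbm : 0 < bt m := by linarith
      have hBm : B ≤ bt m := by
        have : B ≤ B₁ := le_max_left _ _
        linarith
      have h1 := cover (m := m) (κ := c * bt m) (s := s) (by positivity) hs0
        (fun z hz => low m hBm z (hz.trans hs1)) hsF
      have hT3 := bt_T_ge m
      have hs' : c * bt m * s ^ 2 ≤ 1 / 2 := by
        by_contra hcon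
        push Not at hcon
        refine half hc low (m := T m) ?_ ((ball_subset_ball hcon.le).trans h1)
        rw [← hB₁]
        linarith
      refine ⟨c * bt m * s ^ 2, by positivity, hs', ?_, ?_⟩
      · rw [Function.iterate_succ_apply']; exact h1
      · rw [Function.iterate_succ_apply', ← hmdef]
        calc (2 : ℝ) ^ (2 ^ (j + 1)) = (2 ^ (2 ^ j)) ^ 2 := by rw [← pow_mul, pow_succ]
          _ ≤ (c / 3 * bt m * s) ^ 2 := by gcongr
          _ = c / 3 * (bt m / 3) * (c * bt m * s ^ 2) := by ring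
          _ ≤ c / 3 * bt (T m) * (c * bt m * s ^ 2) := by gcongr
  by_cases hex : ∃ j : ℕ, bt (T^[j] n) < B'
  · classical
    have h1 := Nat.find_spec hex
    have h2 : ∀ i < Nat.find hex, B' ≤ bt (T^[i] n) := fun i hi => not_lt.1 (Nat.find_min hex hi)
    obtain ⟨s, hs0, hs1, -, hs2⟩ := claim _ h2
    set j := Nat.find hex with hj
    have hJj : J ≤ j := by
      by_contra hcon
      push Not at hcon
      have h3 := bt_iter_ge n j
      have h4 : (3 : ℝ) ^ j ≤ 3 ^ J := pow_le_pow_right₀ (by norm_num) hcon.le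
      have h5 : B' ≤ bt n / 3 ^ j := by
        rw [le_div_iff₀ (by positivity)]
        calc B' * 3 ^ j ≤ B' * 3 ^ J := by
              apply mul_le_mul_of_nonneg_left h4; linarith
          _ ≤ bt n := by linarith
      linarith
    have h3 : (2 : ℝ) ^ (2 ^ J) ≤ 2 ^ (2 ^ j) :=
      pow_le_pow_right₀ (by norm_num) (Nat.pow_le_pow_right (by norm_num) hJj)
    have h4 : c / 3 * bt (T^[j] n) * s ≤ c / 3 * B' * (1 / 2) := by
      have := bt_one (T^[j] n)
      gcongr
    linarith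
  · push Not at hex
    have h1 : ∀ j : ℕ, (2 : ℝ) ^ (2 ^ j) ≤ (c / 6 * bt n) * 2 ^ j := by
      intro j
      obtain ⟨s, hs0, hs1, -, hs2⟩ := claim j fun i _ => hex i
      have h2 : bt (T^[j] n) ≤ bt n * 2 ^ j := by
        clear hs2 hs1 hs0 s
        induction j with
        | zero => simp
        | succ j ih =>
          rw [Function.iterate_succ_apply', pow_succ]
          have := (Pool.Agent.Y151.WD.t_TAIL.1 (T^[j] n)).2.1
          linarith
      calc (2 : ℝ) ^ (2 ^ j) ≤ c / 3 * bt (T^[j] n) * s := hs2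
        _ ≤ c / 3 * (bt n * 2 ^ j) * (1 / 2) := by
            have := bt_one (T^[j] n)
            gcongr
        _ = (c / 6 * bt n) * 2 ^ j := by ring
    have h2 := no_growth (t := fun j => (2 : ℝ) ^ (2 ^ j)) (D := c / 6 * bt n)
      (fun j => by show ((2 : ℝ) ^ (2 ^ j)) ^ 2 ≤ 2 ^ (2 ^ (j + 1)); rw [← pow_mul, pow_succ]) h1 0
    norm_num at h2

/-- the outer estimate -/
theorem outer_dist {ε : ℝ} (hε : 0 < ε) : ∃ N₀ : ℝ, ∀ n : ℤ, N₀ ≤ bt n →
    ¬ ball (n : ℂ) ((1 + ε) * rho n) ⊆ FatouSet f₀ := by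
  obtain ⟨A, C1, B, c, hA6, hC1, hAB, hc, hAc, hrel, hlow⟩ := consts
  obtain ⟨N2, hN2⟩ := phase2 hc hAc hA6 hlow
  set δ := ε / (2 * (1 + ε)) with hδ
  have hδ0 : 0 < δ := by positivity
  have hδ1 : δ < 1 := by
    rw [hδ, div_lt_one (by positivity)]; linarith
  set a := (1 - δ) * (1 + ε) with ha
  have ha1 : 1 < a := by
    have : a = 1 + ε / 2 := by rw [ha, hδ]; field_simp; ring
    rw [this]; linarith
  obtain ⟨J, hJ⟩ : ∃ J : ℕ, 2 * A < a ^ (2 ^ J) := by
    obtain ⟨J, hJ⟩ := pow_unbounded_of_one_lt (2 * A) ha1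
    exact ⟨J, hJ.trans_le (pow_le_pow_right₀ ha1.le (Nat.lt_two_pow_self).le)⟩
  set B' := max (max A N2) (C1 / δ + 1) with hB'
  have hB'A : A ≤ B' := (le_max_left _ _).trans (le_max_left _ _)
  have hB'N : N2 ≤ B' := (le_max_right _ _).trans (le_max_left _ _)
  have hB'C : C1 / δ + 1 ≤ B' := le_max_right _ _
  have hB'0 : 0 < B' := by linarith
  refine ⟨3 ^ J * B', fun n hn hF => ?_⟩
  have hbig : ∀ j ≤ J, B' ≤ bt (T^[j] n) := by
    intro j hj
    refine le_trans ?_ (bt_iter_ge n j)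
    rw [le_div_iff₀ (by positivity)]
    have h4 : (3 : ℝ) ^ j ≤ 3 ^ J := pow_le_pow_right₀ (by norm_num) hj
    calc B' * 3 ^ j ≤ B' * 3 ^ J := by gcongr
      _ ≤ bt n := by linarith
  have claim : ∀ j ≤ J, ∃ s : ℝ, 0 ≤ s ∧ s ≤ A / bt (T^[j] n) ∧
      ball ((T^[j] n : ℤ) : ℂ) s ⊆ FatouSet f₀ ∧ a ^ (2 ^ j) ≤ (1 - δ) * s / rho (T^[j] n) := by
    have hsmall : ∀ j ≤ J, ∀ s : ℝ, ball ((T^[j] n : ℤ) : ℂ) s ⊆ FatouSet f₀ →
        s ≤ A / bt (T^[j] n) := by
      intro j hj s hs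
      by_contra hcon
      push Not at hcon
      exact hN2 _ (hB'N.trans (hbig j hj)) ((ball_subset_ball hcon.le).trans hs)
    intro j
    induction j with
    | zero =>
      intro h0
      have hr := (Pool.Agent.Y151.WD.t_TAIL.2 n).1
      refine ⟨(1 + ε) * rho n, by positivity, hsmall 0 h0 _ hF, hF, ?_⟩
      simp only [pow_zero, pow_one, Function.iterate_zero, id_eq]
      rw [ha]
      apply le_of_eq
      field_simp
    | succ j ih =>
      intro hj
      obtain ⟨s, hs0, hs1, hsF, hs2⟩ := ih (by omega)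
      have hm := hbig j (by omega)
      set m := T^[j] n with hmdef
      have hbm : 0 < bt m := by linarith
      obtain ⟨hr0, hrT, hr1, hr2⟩ := Pool.Agent.Y151.WD.t_TAIL.2 m
      have hδm : C1 / bt m ^ 2 ≤ δ := by
        rw [div_le_iff₀ (by positivity)]
        have h1 : C1 / δ ≤ bt m := by linarith
        rw [div_le_iff₀ hδ0] at h1
        have h2 := bt_one m
        nlinarith [mul_pos hbm hδ0]
      have h1 := cover (m := m) (κ := (1 - δ) * bt m) (s := s)
        (mul_pos (by linarith) hbm) hs0 (fun z hz => by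
          refine le_trans ?_ (hrel m z (hB'A.trans hm) (hz.trans hs1)).1
          rw [mul_assoc]
          gcongr) hsF
      have h1' : ball ((T^[j + 1] n : ℤ) : ℂ) ((1 - δ) * bt m * s ^ 2) ⊆ FatouSet f₀ := by
        rw [Function.iterate_succ_apply']; exact h1
      have h1δ : 0 < 1 - δ := by linarith
      refine ⟨(1 - δ) * bt m * s ^ 2, by positivity, hsmall _ hj _ h1', h1', ?_⟩
      rw [Function.iterate_succ_apply', ← hmdef, hrT]
      calc a ^ (2 ^ (j + 1)) = (a ^ (2 ^ j)) ^ 2 := by rw [← pow_mul, pow_succ]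
        _ ≤ ((1 - δ) * s / rho m) ^ 2 := by
            have : 0 ≤ a ^ (2 ^ j) := by positivity
            gcongr
        _ = (1 - δ) * ((1 - δ) * bt m * s ^ 2) / (bt m * rho m ^ 2) := by
            field_simp
  obtain ⟨s, hs0, hs1, -, hs2⟩ := claim J le_rfl
  set m := T^[J] n with hmdef
  obtain ⟨hr0, hrT, hr1, hr2⟩ := Pool.Agent.Y151.WD.t_TAIL.2 m
  have hbm : 0 < bt m := by linarith [hbig J le_rfl]
  have h1 : (1 - δ) * s / rho m ≤ 2 * A := by
    rw [div_le_iff₀ hr0]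
    have h2 : (1 - δ) * s ≤ A / bt m := by nlinarith
    refine h2.trans ?_
    rw [div_le_iff₀ hbm]
    nlinarith
  linarith

/-- the inner estimate -/
theorem inner_dist {ε : ℝ} (hε : 0 < ε) (hε1 : ε < 1) : ∃ N₀ : ℝ, ∀ n : ℤ, N₀ ≤ bt n →
    ball (n : ℂ) ((1 - ε) * rho n) ⊆ FatouSet f₀ := by
  have hT := Pool.Agent.Y151.WD.t_TAIL
  obtain ⟨A, C1, B, c, hK⟩ := exists_consts Pool.Agent.Y888.WD.t_NEAR Pool.Agent.Y888.WD.t_LOW
  have hC1 := hK.h1
  have hB0 : 0 < B := B_pos hK hT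
  set B' := max B (C1 / (ε / 2) + 1) with hB'
  have hBB' : B ≤ B' := le_max_left _ _
  have hB'0 : 0 < B' := by linarith
  have hδ : C1 / B' ^ 2 ≤ ε / 2 := by
    rw [div_le_iff₀ (by positivity)]
    have h1 : C1 / (ε / 2) + 1 ≤ B' := le_max_right _ _
    have h2 : C1 / (ε / 2) ≤ B' := by linarith
    rw [div_le_iff₀ (by positivity)] at h2
    have h3 : 0 < C1 / (ε / 2) := by positivity
    have h4 : 1 ≤ B' := by linarith
    nlinarith [mul_pos hB'0 hε]
  have hδ0 := delta_pos hK hT hBB'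
  set δ := C1 / B' ^ 2 with hδdef
  set q := 1 - ε / 2 with hq
  have hq0 : 0 ≤ q := by linarith
  have hq1 : q < 1 := by linarith
  -- a radius that works for all small integers
  have hfin : {m : ℤ | bt m < B'}.Finite := by
    apply Set.Finite.subset (Set.finite_Icc (-⌈B' + 1⌉) ⌈B' + 1⌉)
    intro m hm
    have h1 : bt m < B' := hm
    unfold bt at h1
    have h2 : |(m : ℝ) + 1 / 2| ≤ B' := by
      have : (1 : ℝ) ≤ Real.pi ^ 2 / 4 := by nlinarith [Real.pi_gt_three]
      nlinarith [abs_nonneg ((m : ℝ) + 1 / 2)]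
    rw [abs_le] at h2
    constructor
    · have h3 : -((⌈B' + 1⌉ : ℤ) : ℝ) ≤ (m : ℝ) := by
        have := Int.le_ceil (B' + 1)
        linarith
      exact_mod_cast h3
    · have h3 : (m : ℝ) ≤ ((⌈B' + 1⌉ : ℤ) : ℝ) := by
        have := Int.le_ceil (B' + 1)
        linarith
      exact_mod_cast h3
  obtain ⟨r, hr, hrF⟩ : ∃ r : ℝ, 0 < r ∧ ∀ m : ℤ, bt m < B' → ball (m : ℂ) r ⊆ FatouSet f₀ := by
    have h1 : ∀ m : ℤ, ∃ r : ℝ, 0 < r ∧ ball (m : ℂ) r ⊆ FatouSet f₀ := fun m =>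
      Metric.isOpen_iff.1 (isOpen_fatou f₀) _ (int_mem_fatou m)
    choose R hR0 hRF using h1
    rcases hfin.toFinset.eq_empty_or_nonempty with h2 | h2
    · refine ⟨1, one_pos, fun m hm => ?_⟩
      have : m ∈ hfin.toFinset := hfin.mem_toFinset.2 hm
      rw [h2] at this
      simp at this
    · refine ⟨hfin.toFinset.inf' h2 R, ?_, fun m hm => ?_⟩
      · rw [Finset.lt_inf'_iff]
        exact fun m _ => hR0 m
      · exact (ball_subset_ball (Finset.inf'_le R (hfin.mem_toFinset.2 hm))).trans (hRF m)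
  -- the number of steps
  have hlim : Tendsto (fun j : ℕ => q ^ (2 ^ j) * 3) atTop (𝓝 0) := by
    have h1 : Tendsto (fun j : ℕ => q ^ j) atTop (𝓝 0) := tendsto_pow_atTop_nhds_zero_of_lt_one hq0 hq1
    have h2 : Tendsto (fun j : ℕ => 2 ^ j) atTop atTop := 
      tendsto_pow_atTop_atTop_of_one_lt (by norm_num)
    have h3 := (h1.comp h2).mul_const 3
    simpa using h3
  obtain ⟨J, hJ⟩ := eventually_atTop.1 (hlim.eventually (gt_mem_nhds hr))
  refine ⟨3 ^ J * B', fun n hn z hz => ?_⟩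
  have hr0 := (hT.2 n).1
  have hz' : (1 + δ) * ‖z - n‖ ≤ q * rho n := by
    rw [mem_ball, dist_eq_norm] at hz
    have h1 : (1 + δ) * ‖z - n‖ ≤ (1 + δ) * ((1 - ε) * rho n) := by
      apply mul_le_mul_of_nonneg_left hz.le; linarith
    refine h1.trans ?_
    rw [← mul_assoc]
    apply mul_le_mul_of_nonneg_right _ hr0.le
    nlinarith
  have claim : ∀ j : ℕ, (∀ i < j, B' ≤ bt (T^[i] n)) →
      (1 + δ) * ‖f₀^[j] z - ((T^[j] n : ℤ) : ℂ)‖ ≤ q ^ (2 ^ j) * rho (T^[j] n) := by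
    intro j
    induction j with
    | zero => intro _; simpa using hz'
    | succ j ih =>
      intro hi
      have h1 := step_in hK hT hBB' (hi j (by omega)) (z := f₀^[j] z) (q := q ^ (2 ^ j)) (by positivity)
        (pow_le_one₀ hq0 hq1.le) (ih fun i hij => hi i (by omega))
      rw [Function.iterate_succ_apply', Function.iterate_succ_apply', pow_succ 2 j, pow_mul]
      exact h1
  have hnear : ∀ j : ℕ, (∀ i < j, B' ≤ bt (T^[i] n)) →
      ‖f₀^[j] z - ((T^[j] n : ℤ) : ℂ)‖ ≤ q ^ (2 ^ j) * 3 := by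
    intro j hj
    have h1 := claim j hj
    obtain ⟨hρ0, -, -, hρ⟩ := hT.2 (T^[j] n)
    have h2 := bt_one (T^[j] n)
    have h3 : rho (T^[j] n) ≤ 3 := by nlinarith
    have h4 : (0 : ℝ) ≤ q ^ (2 ^ j) := by positivity
    have h5 := norm_nonneg (f₀^[j] z - ((T^[j] n : ℤ) : ℂ))
    nlinarith [mul_le_mul_of_nonneg_left h3 h4]
  by_cases hex : ∃ j : ℕ, bt (T^[j] n) < B'
  · classical
    have h1 := Nat.find_spec hex
    have h2 : ∀ i < Nat.find hex, B' ≤ bt (T^[i] n) := fun i hi => not_lt.1 (Nat.find_min hex hi)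
    set j := Nat.find hex with hj
    have hJj : J ≤ j := by
      by_contra hcon
      push Not at hcon
      have h3 := bt_iter_ge n j
      have h4 : (3 : ℝ) ^ j ≤ 3 ^ J := pow_le_pow_right₀ (by norm_num) hcon.le
      have h5 : B' ≤ bt n / 3 ^ j := by
        rw [le_div_iff₀ (by positivity)]
        calc B' * 3 ^ j ≤ B' * 3 ^ J := by gcongr
          _ ≤ bt n := by linarith
      linarith
    rw [← fatou_iter_iff z j]
    apply hrF _ h1
    rw [mem_ball, dist_eq_norm]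
    exact (hnear j h2).trans_lt (hJ j hJj)
  · push Not at hex
    by_cases hw : Wild n
    · refine connectedComponentIn_subset _ _ (inner hK hT hBB' hw hex ?_)
      rw [mem_ball, dist_eq_norm, lt_div_iff₀ (by positivity)]
      have : q * rho n < 1 * rho n := mul_lt_mul_of_pos_right hq1 hr0
      linarith
    · obtain ⟨k, p, a, hp, ha, hk⟩ := tame_hits hw
      obtain ⟨r', hr', hr'F⟩ := Metric.isOpen_iff.1 (isOpen_fatou f₀) _ (int_mem_fatou a)
      obtain ⟨J', hJ'⟩ := eventually_atTop.1 (hlim.eventually (gt_mem_nhds hr'))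
      have hit : ∀ i : ℕ, T^[k + p * i] n = a := by
        intro i
        rw [add_comm, Function.iterate_add_apply, hk]
        induction i with
        | zero => simp
        | succ i ih => rw [Nat.mul_succ, Function.iterate_add_apply, ha]; exact ih
      rw [← fatou_iter_iff z (k + p * J')]
      apply hr'F
      rw [mem_ball, dist_eq_norm]
      have h1 := hnear (k + p * J') fun i _ => hex i
      rw [hit] at h1
      refine h1.trans_lt (hJ' _ ?_)
      calc J' ≤ p * J' := Nat.le_mul_of_pos_left _ hp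
        _ ≤ k + p * J' := Nat.le_add_left _ _

end Pool.Agent.Q74.SZ
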