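import Pool.Agent.Q74.SZ.Size
import Pool.Agent.Q74.CE.Cyc

/-!
The distribution of the sizes in invariant sets.
-/

set_option autoImplicit false

open Finset Filter Topology Metric

namespace Pool.Agent.Q74.SZ

open Pool.Agent.H384R2.Fatou Pool.Agent.H723R2.LSW Pool.Agent.Y282.WD
open Pool.Agent.Q74.CE Pool.Agent.H499R2.ND

/-- the window count -/
theorem win_card {s : ℤ} (hs : s = 1 ∨ s = -1) (K n v : ℕ) (hv : v ≤ 2 ^ K) :
    #{j ∈ range (2 ^ K) | A K (s * ((n + j : ℕ) : ℤ)) < v} = v := by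
  classical
  set φ : ℕ → ℤ := fun j => A K (s * ((n + j : ℕ) : ℤ)) with hφ
  have hinj : Set.InjOn φ (range (2 ^ K) : Set ℕ) := by
    intro i hi j hj hij
    rw [coe_range, Set.mem_Iio] at hi hj
    have h1 := (A_inj K _ _).1 hij
    have h2 : (2 : ℤ) ^ K ∣ (i : ℤ) - j := by
      rcases hs with rfl | rfl
      · have e : (1 : ℤ) * ((n + i : ℕ) : ℤ) - 1 * ((n + j : ℕ) : ℤ) = (i : ℤ) - j := by push_cast; ring
        rwa [e] at h1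
      · have e : (-1 : ℤ) * ((n + i : ℕ) : ℤ) - (-1) * ((n + j : ℕ) : ℤ) = -((i : ℤ) - j) := by
          push_cast; ring
        rw [e] at h1
        exact (dvd_neg.1 h1)
    have h3 : |(i : ℤ) - j| < 2 ^ K := by
      have hi' : (i : ℤ) < 2 ^ K := by exact_mod_cast hi
      have hj' : (j : ℤ) < 2 ^ K := by exact_mod_cast hj
      rw [abs_lt]; constructor <;> omega
    have h4 := Int.eq_zero_of_abs_lt_dvd h2 h3
    omega
  have himg : (range (2 ^ K)).image φ = Ico (0 : ℤ) (2 ^ K) := by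
    apply Finset.eq_of_subset_of_card_le
    · intro x hx
      rw [mem_image] at hx
      obtain ⟨j, -, rfl⟩ := hx
      rw [mem_Ico]
      exact A_bd K _
    · rw [card_image_of_injOn hinj, card_range, Int.card_Ico]
      simp
  have h1 : ((range (2 ^ K)).filter (fun j => φ j < v)).image φ = Ico (0 : ℤ) v := by
    ext x
    rw [mem_image, mem_Ico]
    constructor
    · rintro ⟨j, hj, rfl⟩
      rw [mem_filter] at hj
      exact ⟨(A_bd K _).1, hj.2⟩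
    · rintro ⟨h2, h3⟩
      have h4 : x ∈ (range (2 ^ K)).image φ := by
        rw [himg, mem_Ico]
        refine ⟨h2, lt_of_lt_of_le h3 ?_⟩
        exact_mod_cast hv
      rw [mem_image] at h4
      obtain ⟨j, hj, rfl⟩ := h4
      exact ⟨j, mem_filter.2 ⟨hj, h3⟩, rfl⟩
  have h2 : #(((range (2 ^ K)).filter (fun j => φ j < v)).image φ) = v := by
    rw [h1, Int.card_Ico]; simp
  rw [card_image_of_injOn (hinj.mono (by
    intro x hx
    rw [coe_filter] at hx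
    exact hx.1))] at h2
  exact h2

/-- the truncated indicator -/
noncomputable def gf (s : ℤ) (K v n : ℕ) : ℝ := if A K (s * (n : ℤ)) < v then 1 else 0

theorem gf_abs (s : ℤ) (K v n : ℕ) : |gf s K v n| ≤ 1 := by
  unfold gf; split_ifs <;> norm_num

theorem gf_win {s : ℤ} (hs : s = 1 ∨ s = -1) (K n v : ℕ) (hv : v ≤ 2 ^ K) :
    ∑ j ∈ range (2 ^ K), gf s K v (n + j) = v := by
  unfold gf
  rw [Finset.sum_boole, win_card hs K n v hv]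

theorem gf_sum {s : ℤ} (hs : s = 1 ∨ s = -1) (K v : ℕ) (hv : v ≤ 2 ^ K) (N : ℕ) :
    |∑ n ∈ Icc 1 N, gf s K v n - v / 2 ^ K * N| ≤ 2 * 2 ^ K := by
  have h1 : ∀ j ∈ range (2 ^ K), |∑ n ∈ Icc 1 N, gf s K v n - ∑ n ∈ Icc 1 N, gf s K v (n + j)| ≤ 2 * 2 ^ K := by
    intro j hj
    refine (shift_sum (C := 1) (fun n => gf_abs s K v n) N j).trans ?_
    rw [mem_range] at hj
    have : (j : ℝ) ≤ 2 ^ K := by exact_mod_cast hj.le
    linarith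
  have h2 : ∑ j ∈ range (2 ^ K), ∑ n ∈ Icc 1 N, gf s K v (n + j) = v * N := by
    rw [Finset.sum_comm]
    simp_rw [gf_win hs K _ v hv]
    simp [mul_comm]
  have h3 : |∑ j ∈ range (2 ^ K), (∑ n ∈ Icc 1 N, gf s K v n - ∑ n ∈ Icc 1 N, gf s K v (n + j))| ≤
      2 ^ K * (2 * 2 ^ K) := by
    refine (abs_sum_le_sum_abs _ _).trans ((sum_le_sum h1).trans ?_)
    simp
  rw [sum_sub_distrib, h2] at h3
  simp only [sum_const, card_range, nsmul_eq_mul] at h3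
  push_cast at h3
  have hK : (0 : ℝ) < 2 ^ K := by positivity
  have e : ∑ n ∈ Icc 1 N, gf s K v n - v / 2 ^ K * N =
      (2 ^ K * ∑ n ∈ Icc 1 N, gf s K v n - v * N) / 2 ^ K := by field_simp
  rw [e, abs_div, abs_of_pos hK, div_le_iff₀ hK]
  linarith

/-- the number of elements with small truncation, uniformly -/
theorem trunc {s : ℤ} (hs : s = 1 ∨ s = -1) (K : ℕ) {ε : ℝ} (hε : 0 < ε) : ∃ N₀ : ℕ, ∀ N ≥ N₀,
    ∀ S : Set ℤ, Inv 1 S → ∀ δ : ℝ, ND s S δ → ∀ v : ℕ, v ≤ 2 ^ K →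
      |({n ∈ Set.Icc 1 N | s * ((n : ℕ) : ℤ) ∈ S ∧ A K (s * ((n : ℕ) : ℤ)) < v}.ncard : ℝ) - δ * (v / 2 ^ K) * N| ≤
        ε * N := by
  classical
  have h1 : ∀ v : ℕ, v ≤ 2 ^ K → ∃ N₀ : ℕ, ∀ w ∈ Wt s, ∀ N ≥ N₀, |∑ n ∈ Icc 1 N, w n * gf s K v n| ≤ ε / 2 * N := by
    intro v hv
    refine (flat hs).orth (C := 1) (fun n => gf_abs s K v n) (v / 2 ^ K) (fun η hη => ?_) (by positivity)
    refine ⟨2 ^ K, Nat.one_le_two_pow, 0, fun N _ => ?_⟩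
    have h2 : ∀ n ∈ Icc 1 N, |(∑ j ∈ range (2 ^ K), gf s K v (n + j)) / ((2 ^ K : ℕ) : ℝ) - v / 2 ^ K| = 0 := by
      intro n _
      rw [gf_win hs K n v hv]
      simp
    rw [sum_congr rfl h2]
    simp
    positivity
  choose! f hf using h1
  obtain ⟨M, hM⟩ := exists_nat_ge (4 * 2 ^ K / ε)
  refine ⟨max ((range (2 ^ K + 1)).sup f) M, fun N hN S hS δ hδ v hv => ?_⟩
  have hN1 : f v ≤ N := by
    refine le_trans ?_ ((le_max_left _ _).trans hN)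
    exact Finset.le_sup (f := f) (mem_range.2 (by omega))
  have hN2 : 4 * 2 ^ K / ε ≤ N := hM.trans (by exact_mod_cast (le_max_right _ _).trans hN)
  rw [div_le_iff₀ hε] at hN2
  have h2 := hf v hv (wt s S δ) ⟨S, hS, δ, hδ, rfl⟩ N hN1
  have h3 := sum_split (s := s) (S := S) δ (gf s K v) N
  have h4 := gf_sum hs K v hv N
  have h5 : (({n ∈ Set.Icc 1 N | s * ((n : ℕ) : ℤ) ∈ S ∧ A K (s * ((n : ℕ) : ℤ)) < v}.ncard : ℕ) : ℝ) =
      ∑ n ∈ Icc 1 N with s * ((n : ℕ) : ℤ) ∈ S, gf s K v n := by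
    have h6 : {n ∈ Set.Icc 1 N | s * ((n : ℕ) : ℤ) ∈ S ∧ A K (s * ((n : ℕ) : ℤ)) < v} =
        ((((Icc 1 N).filter (fun n : ℕ => s * (n : ℤ) ∈ S)).filter
          (fun n : ℕ => A K (s * (n : ℤ)) < v) : Finset ℕ) : Set ℕ) := by
      ext x
      simp only [Set.mem_Icc, coe_filter, mem_filter, mem_Icc, Set.mem_ofPred_eq]
      tauto
    rw [h6, Set.ncard_coe_finset]
    unfold gf
    rw [Finset.sum_boole]
  rw [h5, h3]
  obtain ⟨hδ0, hδ1⟩ := ND_bounds hs hS hδ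
  have e : ∑ n ∈ Icc 1 N, wt s S δ n * gf s K v n + δ * ∑ n ∈ Icc 1 N, gf s K v n - δ * (v / 2 ^ K) * N =
      ∑ n ∈ Icc 1 N, wt s S δ n * gf s K v n + δ * (∑ n ∈ Icc 1 N, gf s K v n - v / 2 ^ K * N) := by ring
  rw [e]
  have h7 : |δ * (∑ n ∈ Icc 1 N, gf s K v n - v / 2 ^ K * N)| ≤ 2 * 2 ^ K := by
    rw [abs_mul, abs_of_nonneg hδ0]
    calc δ * |∑ n ∈ Icc 1 N, gf s K v n - v / 2 ^ K * N| ≤ 1 * (2 * 2 ^ K) := by gcongr
      _ = 2 * 2 ^ K := one_mul _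
  have h8 := abs_add_le (∑ n ∈ Icc 1 N, wt s S δ n * gf s K v n) (δ * (∑ n ∈ Icc 1 N, gf s K v n - v / 2 ^ K * N))
  linarith

/-- counting in `[1, N]` -/
noncomputable def cnt (N : ℕ) (Q : ℕ → Prop) : ℝ := ({n ∈ Set.Icc 1 N | Q n}.ncard : ℝ)

theorem sep_fin (N : ℕ) (Q : ℕ → Prop) : {n ∈ Set.Icc 1 N | Q n}.Finite :=
  (Set.finite_Icc 1 N).subset fun _ h => h.1

theorem cnt_mono {N : ℕ} {Q R : ℕ → Prop} (M : ℕ) (h : ∀ n, M ≤ n → Q n → R n) :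
    cnt N Q ≤ cnt N R + M := by
  unfold cnt
  have h1 : {n ∈ Set.Icc 1 N | Q n} ⊆ {n ∈ Set.Icc 1 N | R n} ∪ ((range M : Finset ℕ) : Set ℕ) := by
    rintro n ⟨hn, hQ⟩
    by_cases hM : M ≤ n
    · exact Or.inl ⟨hn, h n hM hQ⟩
    · exact Or.inr (by rw [coe_range, Set.mem_Iio]; omega)
  have h2 := (Set.ncard_le_ncard h1 ((sep_fin N R).union (Finset.finite_toSet _))).trans (Set.ncard_union_le _ _)
  rw [Set.ncard_coe_finset, card_range] at h2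
  exact_mod_cast h2

theorem cnt_split {N : ℕ} (Q R : ℕ → Prop) :
    cnt N Q = cnt N (fun n => Q n ∧ R n) + cnt N (fun n => Q n ∧ ¬ R n) := by
  unfold cnt
  have h1 : {n ∈ Set.Icc 1 N | Q n} = {n ∈ Set.Icc 1 N | Q n ∧ R n} ∪ {n ∈ Set.Icc 1 N | Q n ∧ ¬ R n} := by
    ext n
    simp only [Set.mem_union, Set.mem_ofPred_eq]
    tauto
  have h2 : Disjoint {n ∈ Set.Icc 1 N | Q n ∧ R n} {n ∈ Set.Icc 1 N | Q n ∧ ¬ R n} := by
    rw [Set.disjoint_left]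
    rintro n ⟨-, -, h3⟩ ⟨-, -, h4⟩
    exact h4 h3
  rw [h1, Set.ncard_union_eq h2 (sep_fin N _) (sep_fin N _)]
  push_cast
  rfl

theorem size_event {η : ℝ} (hη : 0 < η) : ∃ M : ℕ, ∀ s : ℤ, (s = 1 ∨ s = -1) → ∀ n : ℕ, M ≤ n → ∀ x : ℝ,
    (|((s * (n : ℤ) : ℤ) : ℝ)| * D (s * n) ≤ 8 / Real.pi ^ 2 * (3 : ℝ) ^ (-x) → x - η ≤ theta (s * n)) ∧
    (x + η ≤ theta (s * n) → |((s * (n : ℤ) : ℤ) : ℝ)| * D (s * n) ≤ 8 / Real.pi ^ 2 * (3 : ℝ) ^ (-x)) := by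
  have hl3 : 0 < Real.log 3 := Real.log_pos (by norm_num)
  obtain ⟨N₀, h⟩ := size (show 0 < η * Real.log 3 by positivity)
  obtain ⟨M, hM⟩ := exists_nat_ge (N₀ + 1)
  refine ⟨M, fun s hs n hn x => ?_⟩
  have hb : N₀ ≤ bt (s * n) := by
    have h1 : (M : ℝ) ≤ n := by exact_mod_cast hn
    have h2 : (n : ℝ) - 1 / 2 ≤ |((s * (n : ℤ) : ℤ) : ℝ) + 1 / 2| := by
      rcases hs with rfl | rfl
      · push_cast
        rw [one_mul]
        exact le_trans (by linarith) (le_abs_self _)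
      · push_cast
        refine le_trans (by linarith) (neg_le_abs _)
    unfold bt
    have h3 : (1 : ℝ) ≤ Real.pi ^ 2 / 4 := by nlinarith [Real.pi_gt_three]
    nlinarith [abs_nonneg (((s * (n : ℤ) : ℤ) : ℝ) + 1 / 2)]
  obtain ⟨hpos, h1⟩ := h _ hb
  rw [abs_le] at h1
  have e : 8 / Real.pi ^ 2 * (3 : ℝ) ^ (-x) = Real.exp (Real.log (8 / Real.pi ^ 2) - x * Real.log 3) := by
    rw [sub_eq_add_neg, Real.exp_add, Real.exp_log (by positivity), Real.rpow_def_of_pos (by norm_num)]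
    congr 2
    ring
  have e2 : |((s * (n : ℤ) : ℤ) : ℝ)| * D (s * n) ≤ 8 / Real.pi ^ 2 * (3 : ℝ) ^ (-x) ↔
      lg (s * n) ≤ Real.log (8 / Real.pi ^ 2) - x * Real.log 3 := by
    rw [e]
    unfold lg
    rw [Real.log_le_iff_le_exp hpos]
  rw [e2]
  constructor
  · intro h2
    by_contra hcon
    push Not at hcon
    nlinarith
  · intro h2
    nlinarith

/-- the law -/
theorem law {s : ℤ} (hs : s = 1 ∨ s = -1) {ε : ℝ} (hε : 0 < ε) : ∃ N₀ : ℕ, ∀ N ≥ N₀,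
    ∀ S : Set ℤ, Inv 1 S → ∀ δ : ℝ, ND s S δ → ∀ x : ℝ, 0 ≤ x → x ≤ 1 →
      |cnt N (fun n => s * (n : ℤ) ∈ S ∧ |((s * (n : ℤ) : ℤ) : ℝ)| * D (s * n) ≤
          8 / Real.pi ^ 2 * (3 : ℝ) ^ (-x)) - δ * (1 - x) * N| ≤ ε * N := by
  obtain ⟨K, hK⟩ := pow_unbounded_of_one_lt (12 / ε) (show (1 : ℝ) < 2 by norm_num)
  have hK0 : (0 : ℝ) < 2 ^ K := by positivity
  obtain ⟨M, hM⟩ := size_event (show 0 < 1 / (2 : ℝ) ^ K by positivity)
  obtain ⟨N₁, hN₁⟩ := trunc hs K (show 0 < ε / 8 by positivity)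
  obtain ⟨N₂, hN₂⟩ := exists_nat_ge (4 * M / ε)
  refine ⟨max N₁ N₂, fun N hN S hS δ hδ x hx0 hx1 => ?_⟩
  have hG : ∀ v : ℕ, v ≤ 2 ^ K → |cnt N (fun n => s * (n : ℤ) ∈ S ∧ A K (s * (n : ℤ)) < v) - δ * (v / 2 ^ K) * N| ≤
      ε / 8 * N := hN₁ N ((le_max_left _ _).trans hN) S hS δ hδ
  have hMN : 4 * M / ε ≤ N := hN₂.trans (by exact_mod_cast (le_max_right _ _).trans hN)
  rw [div_le_iff₀ hε] at hMN
  have hN0 : (0 : ℝ) ≤ N := Nat.cast_nonneg N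
  obtain ⟨hδ0, hδ1⟩ := ND_bounds hs hS hδ
  have hKε : 3 / 2 ^ K ≤ ε / 4 := by
    rw [div_lt_iff₀ hε] at hK
    rw [div_le_iff₀ hK0]
    linarith
  set C : ℕ → Prop := fun n => |((s * (n : ℤ) : ℤ) : ℝ)| * D (s * n) ≤ 8 / Real.pi ^ 2 * (3 : ℝ) ^ (-x) with hC
  set v := ⌊x * 2 ^ K⌋₊ with hv
  have hv1 : (v : ℝ) ≤ x * 2 ^ K := Nat.floor_le (by positivity)
  have hv2 : x * 2 ^ K < v + 1 := Nat.lt_floor_add_one _
  have hvK : v ≤ 2 ^ K := by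
    have : (v : ℝ) ≤ 2 ^ K := hv1.trans (by nlinarith)
    exact_mod_cast this
  -- the total
  have htot : ∀ w : ℕ, w ≤ 2 ^ K → |cnt N (fun n => s * (n : ℤ) ∈ S ∧ ¬ A K (s * (n : ℤ)) < w) -
      δ * (1 - w / 2 ^ K) * N| ≤ ε / 4 * N := by
    intro w hw
    have h1 := cnt_split (N := N) (fun n => s * (n : ℤ) ∈ S) (fun n => A K (s * (n : ℤ)) < w)
    have h2 := hG w hw
    have h3 := hG (2 ^ K) le_rfl
    have h4 : cnt N (fun n => s * (n : ℤ) ∈ S ∧ A K (s * (n : ℤ)) < ((2 ^ K : ℕ) : ℤ)) = cnt N (fun n => s * (n : ℤ) ∈ S) := by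
      congr 1
      ext n
      have := (A_bd K (s * (n : ℤ))).2
      push_cast
      tauto
    rw [h4] at h3
    push_cast at h3
    rw [div_self hK0.ne', mul_one] at h3
    rw [abs_le] at h2 h3 ⊢
    constructor <;> nlinarith
  have hup : cnt N (fun n => s * (n : ℤ) ∈ S ∧ C n) ≤
      cnt N (fun n => s * (n : ℤ) ∈ S ∧ ¬ A K (s * (n : ℤ)) < ((v - 2 : ℕ) : ℤ)) + M := by
    refine cnt_mono M fun n hn hQ => ⟨hQ.1, fun hcon => ?_⟩
    have h1 := (hM s hs n hn x).1 hQ.2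
    have h2 := (theta_A K (s * n)).2
    have h3 : ((A K (s * (n : ℤ)) : ℤ) : ℝ) + 1 ≤ ((v - 2 : ℕ) : ℝ) := by exact_mod_cast Int.add_one_le_of_lt hcon
    rw [le_div_iff₀ hK0] at h2
    have h4 : (x - 1 / 2 ^ K) * 2 ^ K ≤ theta (s * n) * 2 ^ K := by gcongr
    have h5 : (x - 1 / 2 ^ K) * 2 ^ K = x * 2 ^ K - 1 := by field_simp
    have h6 : 0 ≤ A K (s * (n : ℤ)) := (A_bd K _).1
    have h7 : 2 ≤ v := by
      have : (0 : ℤ) < ((v - 2 : ℕ) : ℤ) := lt_of_le_of_lt h6 hcon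
      omega
    rw [Nat.cast_sub h7] at h3
    push_cast at h3
    linarith
  have hlow : cnt N (fun n => s * (n : ℤ) ∈ S ∧ ¬ A K (s * (n : ℤ)) < ((min (v + 2) (2 ^ K) : ℕ) : ℤ)) ≤
      cnt N (fun n => s * (n : ℤ) ∈ S ∧ C n) + M := by
    refine cnt_mono M fun n hn hQ => ⟨hQ.1, ?_⟩
    have h6 := (A_bd K (s * (n : ℤ))).2
    have h7 : ((v + 2 : ℕ) : ℤ) ≤ A K (s * (n : ℤ)) := by
      have h8 := not_lt.1 hQ.2
      rcases le_total (v + 2) (2 ^ K) with h9 | h9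
      · rwa [min_eq_left h9] at h8
      · rw [min_eq_right h9] at h8
        push_cast at h8
        omega
    apply (hM s hs n hn x).2
    refine le_trans ?_ (theta_A K (s * n)).1
    rw [le_div_iff₀ hK0]
    have h5 : (x + 1 / 2 ^ K) * 2 ^ K = x * 2 ^ K + 1 := by field_simp
    rw [h5]
    have h8 : ((v + 2 : ℕ) : ℝ) ≤ ((A K (s * (n : ℤ)) : ℤ) : ℝ) := by exact_mod_cast h7
    push_cast at h8
    linarith
  have h1 := abs_le.1 (htot (v - 2) (by omega))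
  have h2 := abs_le.1 (htot (min (v + 2) (2 ^ K)) (min_le_right _ _))
  have h3 : (v : ℝ) - 2 ≤ ((v - 2 : ℕ) : ℝ) := by
    rw [sub_le_iff_le_add]
    exact_mod_cast (by omega : v ≤ v - 2 + 2)
  have h4 : ((min (v + 2) (2 ^ K) : ℕ) : ℝ) ≤ v + 2 := by
    exact_mod_cast min_le_left (v + 2) (2 ^ K)
  have h5 : δ * (1 - ((v - 2 : ℕ) : ℝ) / 2 ^ K) * N ≤ δ * (1 - x) * N + 3 / 2 ^ K * N := by
    have h6 : 1 - ((v - 2 : ℕ) : ℝ) / 2 ^ K ≤ (1 - x) + 3 / 2 ^ K := by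
      have h7 : x - 3 / 2 ^ K ≤ ((v - 2 : ℕ) : ℝ) / 2 ^ K := by
        rw [le_div_iff₀ hK0]
        have h8 : (x - 3 / 2 ^ K) * 2 ^ K = x * 2 ^ K - 3 := by field_simp
        rw [h8]; linarith
      linarith
    have h9 : 0 ≤ 3 / (2 : ℝ) ^ K := by positivity
    calc δ * (1 - ((v - 2 : ℕ) : ℝ) / 2 ^ K) * N ≤ δ * ((1 - x) + 3 / 2 ^ K) * N := by gcongr
      _ = δ * (1 - x) * N + δ * (3 / 2 ^ K) * N := by ring
      _ ≤ δ * (1 - x) * N + 1 * (3 / 2 ^ K) * N := by gcongr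
      _ = _ := by ring
  have h6 : δ * (1 - x) * N - 3 / 2 ^ K * N ≤ δ * (1 - ((min (v + 2) (2 ^ K) : ℕ) : ℝ) / 2 ^ K) * N := by
    have h6 : (1 - x) - 3 / 2 ^ K ≤ 1 - ((min (v + 2) (2 ^ K) : ℕ) : ℝ) / 2 ^ K := by
      have h7 : ((min (v + 2) (2 ^ K) : ℕ) : ℝ) / 2 ^ K ≤ x + 3 / 2 ^ K := by
        rw [div_le_iff₀ hK0]
        have h8 : (x + 3 / 2 ^ K) * 2 ^ K = x * 2 ^ K + 3 := by field_simp
        rw [h8]; linarith
      linarith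
    have h9 : 0 ≤ 3 / (2 : ℝ) ^ K := by positivity
    calc δ * (1 - x) * N - 3 / 2 ^ K * N = δ * (1 - x) * N - 1 * (3 / 2 ^ K) * N := by ring
      _ ≤ δ * (1 - x) * N - δ * (3 / 2 ^ K) * N := by gcongr
      _ = δ * ((1 - x) - 3 / 2 ^ K) * N := by ring
      _ ≤ _ := by gcongr
  have h7 : 3 / (2 : ℝ) ^ K * N ≤ ε / 4 * N := by gcongr
  have h8 : (M : ℝ) ≤ ε / 4 * N := by linarith
  rw [abs_le]
  constructor <;> linarith

theorem total {s : ℤ} (hs : s = 1 ∨ s = -1) {ε : ℝ} (hε : 0 < ε) : ∃ N₀ : ℕ, ∀ N ≥ N₀,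
    ∀ S : Set ℤ, Inv 1 S → ∀ δ : ℝ, ND s S δ → |cnt N (fun n => s * (n : ℤ) ∈ S) - δ * N| ≤ ε * N := by
  obtain ⟨N₀, h⟩ := trunc hs 0 hε
  refine ⟨N₀, fun N hN S hS δ hδ => ?_⟩
  have h1 := h N hN S hS δ hδ 1 (by norm_num)
  unfold cnt
  simp only [A, Nat.cast_one, pow_zero, div_one, mul_one, zero_lt_one, and_true] at h1
  exact h1

/-- both signs, no density in the statement, invariance on one side only -/
theorem law2 {ε : ℝ} (hε : 0 < ε) : ∃ N₀ : ℕ, ∀ N ≥ N₀, ∀ s : ℤ, (s = 1 ∨ s = -1) →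
    ∀ S : Set ℤ, (∀ n : ℤ, 0 < s * n → (n ∈ S ↔ T n ∈ S)) → ∀ x : ℝ, 0 ≤ x → x ≤ 1 →
      |cnt N (fun n => s * (n : ℤ) ∈ S ∧ |((s * (n : ℤ) : ℤ) : ℝ)| * D (s * n) ≤
          8 / Real.pi ^ 2 * (3 : ℝ) ^ (-x)) - (1 - x) * cnt N (fun n => s * (n : ℤ) ∈ S)| ≤ ε * N := by
  obtain ⟨N1, h1⟩ := law (s := 1) (Or.inl rfl) (show 0 < ε / 2 by positivity)
  obtain ⟨N2, h2⟩ := law (s := -1) (Or.inr rfl) (show 0 < ε / 2 by positivity)
  obtain ⟨N3, h3⟩ := total (s := 1) (Or.inl rfl) (show 0 < ε / 2 by positivity)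
  obtain ⟨N4, h4⟩ := total (s := -1) (Or.inr rfl) (show 0 < ε / 2 by positivity)
  refine ⟨max (max N1 N2) (max N3 N4), fun N hN s hs S hS x hx0 hx1 => ?_⟩
  have hN1 : N1 ≤ N := ((le_max_left _ _).trans (le_max_left _ _)).trans hN
  have hN2 : N2 ≤ N := ((le_max_right _ _).trans (le_max_left _ _)).trans hN
  have hN3 : N3 ≤ N := ((le_max_left _ _).trans (le_max_right _ _)).trans hN
  have hN4 : N4 ≤ N := ((le_max_right _ _).trans (le_max_right _ _)).trans hN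
  set S' : Set ℤ := {n | n ∈ S ∧ 0 < s * n} with hS'
  have hinv : Inv 1 S' := by
    intro n
    have hT : 0 < s * n ↔ 0 < s * Td 1 n := by
      unfold Td
      rcases hs with rfl | rfl <;> split_ifs <;> omega
    constructor
    · rintro ⟨ha, hb⟩
      exact ⟨(hS n hb).1 ha, hT.1 hb⟩
    · rintro ⟨ha, hb⟩
      exact ⟨(hS n (hT.2 hb)).2 ha, hT.2 hb⟩
  obtain ⟨δ, hδ0, hδ1, hδ⟩ := ND_exists hs hinv
  have hmem : ∀ n ∈ Set.Icc 1 N, (s * (n : ℤ) ∈ S' ↔ s * (n : ℤ) ∈ S) := by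
    intro n hn
    refine ⟨fun h => h.1, fun h => ⟨h, ?_⟩⟩
    have : 1 ≤ n := hn.1
    rcases hs with rfl | rfl
    · omega
    · omega
  have e1 : cnt N (fun n => s * (n : ℤ) ∈ S') = cnt N (fun n => s * (n : ℤ) ∈ S) := by
    unfold cnt
    congr 2
    ext n
    exact and_congr_right fun hn => hmem n hn
  have e2 : ∀ Q : ℕ → Prop, cnt N (fun n => s * (n : ℤ) ∈ S' ∧ Q n) = cnt N (fun n => s * (n : ℤ) ∈ S ∧ Q n) := by
    intro Q
    unfold cnt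
    congr 2
    ext n
    exact and_congr_right fun hn => and_congr_left fun _ => hmem n hn
  have h5 : |cnt N (fun n => s * (n : ℤ) ∈ S' ∧ |((s * (n : ℤ) : ℤ) : ℝ)| * D (s * n) ≤
          8 / Real.pi ^ 2 * (3 : ℝ) ^ (-x)) - δ * (1 - x) * N| ≤ ε / 2 * N := by
    rcases hs with rfl | rfl
    · exact h1 N hN1 S' hinv δ hδ x hx0 hx1
    · exact h2 N hN2 S' hinv δ hδ x hx0 hx1
  have h6 : |cnt N (fun n => s * (n : ℤ) ∈ S') - δ * N| ≤ ε / 2 * N := by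
    rcases hs with rfl | rfl
    · exact h3 N hN3 S' hinv δ hδ
    · exact h4 N hN4 S' hinv δ hδ
  rw [e2] at h5
  rw [e1] at h6
  rw [abs_le] at h5 h6 ⊢
  have hN0 : (0 : ℝ) ≤ N := Nat.cast_nonneg N
  have h7 : 0 ≤ ε / 2 * N := by positivity
  constructor <;> nlinarith

/-- ratio version -/
theorem law3 {s : ℤ} (hs : s = 1 ∨ s = -1) {S : Set ℤ} (hS : ∀ n : ℤ, 0 < s * n → (n ∈ S ↔ T n ∈ S))
    (hne : ∃ n : ℤ, 0 < s * n ∧ n ∈ S) {x : ℝ} (hx0 : 0 ≤ x) (hx1 : x ≤ 1) :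
    Tendsto (fun N : ℕ => cnt N (fun n => s * (n : ℤ) ∈ S ∧ |((s * (n : ℤ) : ℤ) : ℝ)| * D (s * n) ≤
          8 / Real.pi ^ 2 * (3 : ℝ) ^ (-x)) / cnt N (fun n => s * (n : ℤ) ∈ S)) atTop (𝓝 (1 - x)) := by
  set S' : Set ℤ := {n | n ∈ S ∧ 0 < s * n} with hS'
  have hinv : Inv 1 S' := by
    intro n
    have hT : 0 < s * n ↔ 0 < s * Td 1 n := by
      unfold Td
      rcases hs with rfl | rfl <;> split_ifs <;> omega
    constructor
    · rintro ⟨ha, hb⟩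
      exact ⟨(hS n hb).1 ha, hT.1 hb⟩
    · rintro ⟨ha, hb⟩
      exact ⟨(hS n (hT.2 hb)).2 ha, hT.2 hb⟩
  obtain ⟨δ, hδ0, hδ1, hδ⟩ := ND_exists hs hinv
  obtain ⟨a, ha1, ha2⟩ := hne
  have hpos : 0 < δ := ND_pos hs hinv hδ (a := a) ⟨ha2, ha1⟩ ha1
  obtain ⟨N₁, hN₁⟩ := total hs (show 0 < δ / 2 by positivity)
  have hmem : ∀ N : ℕ, cnt N (fun n => s * (n : ℤ) ∈ S') = cnt N (fun n => s * (n : ℤ) ∈ S) := by
    intro N
    unfold cnt
    congr 2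
    ext n
    refine and_congr_right fun hn => ⟨fun h => h.1, fun h => ⟨h, ?_⟩⟩
    have : 1 ≤ n := hn.1
    rcases hs with rfl | rfl
    · omega
    · omega
  rw [Metric.tendsto_atTop]
  intro ε hε
  obtain ⟨N₂, hN₂⟩ := law2 (show 0 < ε * δ / 4 by positivity)
  refine ⟨max (max N₁ N₂) 1, fun N hN => ?_⟩
  have h1 := hN₁ N (((le_max_left _ _).trans (le_max_left _ _)).trans hN) S' hinv δ hδ
  have h2 := hN₂ N (((le_max_right _ _).trans (le_max_left _ _)).trans hN) s hs S hS x hx0 hx1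
  have hN1 : (1 : ℝ) ≤ N := by exact_mod_cast (le_max_right _ _).trans hN
  rw [hmem] at h1
  have h3 : δ / 2 * N ≤ cnt N (fun n => s * (n : ℤ) ∈ S) := by
    rw [abs_le] at h1
    linarith
  have h4 : 0 < cnt N (fun n => s * (n : ℤ) ∈ S) := lt_of_lt_of_le (by positivity) h3
  rw [Real.dist_eq]
  rw [show ∀ p q r : ℝ, p / q - r = p / q - r from fun _ _ _ => rfl]
  rw [div_sub' h4.ne', abs_div, abs_of_pos h4, div_lt_iff₀ h4]
  rw [mul_comm (cnt N fun n => s * (n : ℤ) ∈ S) (1 - x)]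
  refine lt_of_le_of_lt h2 ?_
  have h5 : 0 < ε * δ * N := by positivity
  nlinarith

end Pool.Agent.Q74.SZ
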