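import Pool.Agent.Q74.SZ.Size

/-!
The limit points of the sizes along a wandering orbit.
-/

set_option autoImplicit false

open Filter Topology Metric Set

namespace Pool.Agent.Q74.SZ

open Pool.Agent.H384R2.Fatou Pool.Agent.H723R2.LSW Pool.Agent.Y282.WD

theorem eq_of_A {x y : ℤ} (h : ∀ K : ℕ, A K x = A K y) : x = y := by
  by_contra hne
  have h1 : x - y ≠ 0 := sub_ne_zero.2 hne
  obtain ⟨K, hK⟩ := pow_unbounded_of_one_lt (|x - y|) (show (1 : ℤ) < 2 by norm_num)
  exact h1 (Int.eq_zero_of_abs_lt_dvd ((A_inj K x y).1 (h K)) hK)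

theorem theta_zero {x : ℤ} (h : theta x = 0) : x = 0 := by
  apply eq_of_A
  intro K
  have h0 : A K 0 = 0 := by
    induction K with
    | zero => rfl
    | succ K ih =>
      have : T 0 = 0 := by decide
      simp [A, this, ih]
  rw [h0]
  have h1 := (theta_A K x).1
  rw [h, div_le_iff₀ (by positivity), zero_mul] at h1
  have h2 := (A_bd K x).1
  have h3 : A K x ≤ 0 := by exact_mod_cast h1
  omega

theorem wild_ne_zero {x : ℤ} (h : Wild x) : x ≠ 0 := by
  rintro rfl
  have h1 := h 1 0 (by decide)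
  omega

theorem wild_T {x : ℤ} (h : Wild x) : Wild (T x) := wild_iter h 1

theorem A_of_theta (K : ℕ) {x y : ℤ} (hx : Wild x) (hy : Wild y) (h : theta x = theta y) : A K x = A K y := by
  induction K generalizing x y with
  | zero => rfl
  | succ K ih =>
    have h1 := theta_rec x
    have h2 := theta_rec y
    have b1 := theta_bd (T x)
    have b2 := theta_bd (T y)
    rcases Int.emod_two_eq_zero_or_one x with hx2 | hx2 <;>
      rcases Int.emod_two_eq_zero_or_one y with hy2 | hy2 <;> rw [hx2] at h1 <;> rw [hy2] at h2 <;>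
        push_cast at h1 h2
    · simp only [A, hx2, hy2]
      rw [ih (wild_T hx) (wild_T hy) (by linarith)]
    · exact absurd (theta_zero (by linarith)) (wild_ne_zero (wild_T hy))
    · exact absurd (theta_zero (by linarith)) (wild_ne_zero (wild_T hx))
    · simp only [A, hx2, hy2]
      rw [ih (wild_T hx) (wild_T hy) (by linarith)]

theorem theta_inj {x y : ℤ} (hx : Wild x) (hy : Wild y) (h : theta x = theta y) : x = y :=
  eq_of_A fun K => A_of_theta K hx hy h

theorem theta_clusters {n : ℤ} (hn : Wild n) : {c : ℝ | MapClusterPt c atTop fun k : ℕ => theta (T^[k] n)}.Infinite := by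
  intro hfin
  set t : ℕ → ℝ := fun k => theta (T^[k] n) with ht
  set C : Set ℝ := {c : ℝ | MapClusterPt c atTop t} with hC
  -- the separation
  set F : Set ℝ := (fun q : ℝ × ℝ × ℝ => 2 * q.1 - q.2.2 - q.2.1) '' (C ×ˢ C ×ˢ {0, 1}) with hF
  have hFfin : F.Finite := (hfin.prod (hfin.prod (by simp))).image _
  have hcl : IsClosed (F \ {0}) := (hFfin.subset sdiff_subset).isClosed
  obtain ⟨ε, hε, hball⟩ := Metric.isOpen_iff.1 hcl.isOpen_compl (0 : ℝ) (by simp)
  have hsep : ∀ c ∈ C, ∀ c' ∈ C, ∀ p : ℝ, (p = 0 ∨ p = 1) → |2 * c - p - c'| < ε → 2 * c - p = c' := by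
    intro c hc c' hc' p hp h
    by_contra hne
    have h1 : 2 * c - p - c' ∈ ball (0 : ℝ) ε := by rw [mem_ball, Real.dist_eq, sub_zero]; exact h
    exact hball h1 ⟨⟨(c, c', p), ⟨hc, hc', hp⟩, rfl⟩, fun h2 => hne (by
      rw [mem_singleton_iff] at h2; linarith)⟩
  -- eventually near `C`
  have hnear : ∀ᶠ k in atTop, ∃ c ∈ C, |t k - c| < ε / 4 := by
    by_contra hcon
    rw [Filter.not_eventually] at hcon
    have hK : IsCompact (Icc (0 : ℝ) 1 ∩ {y | ∀ c ∈ C, ε / 4 ≤ |y - c|}) := by
      refine isCompact_Icc.inter_right ?_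
      have : {y : ℝ | ∀ c ∈ C, ε / 4 ≤ |y - c|} = ⋂ c ∈ C, {y | ε / 4 ≤ |y - c|} := by
        ext y; simp
      rw [this]
      exact isClosed_biInter fun c _ => isClosed_le continuous_const (by fun_prop)
    have hfr : ∃ᶠ k in atTop, t k ∈ Icc (0 : ℝ) 1 ∩ {y | ∀ c ∈ C, ε / 4 ≤ |y - c|} := by
      refine hcon.mono fun k hk => ⟨theta_bd _, fun c hc => ?_⟩
      by_contra h2
      exact hk ⟨c, hc, not_le.1 h2⟩
    obtain ⟨c, hc1, hc2⟩ := hK.exists_mapClusterPt_of_frequently hfr
    have h3 := hc1.2 c hc2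
    simp at h3
    linarith
  obtain ⟨k₀, hk₀⟩ := eventually_atTop.1 hnear
  choose! c hc hcd using hk₀
  have hstep : ∀ k, k₀ ≤ k → t (k + 1) - c (k + 1) = 2 * (t k - c k) := by
    intro k hk
    have h1 := theta_rec (T^[k] n)
    rw [← Function.iterate_succ_apply' T k n] at h1
    have h2 : t (k + 1) = 2 * t k - ((T^[k] n % 2 : ℤ) : ℝ) := by
      simp only [ht]; linarith
    have h3 := hcd k hk
    have h4 := hcd (k + 1) (by omega)
    have hp : ((T^[k] n % 2 : ℤ) : ℝ) = 0 ∨ ((T^[k] n % 2 : ℤ) : ℝ) = 1 := by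
      rcases Int.emod_two_eq_zero_or_one (T^[k] n) with h | h <;> rw [h] <;> simp
    have h5 := hsep (c k) (hc k hk) (c (k + 1)) (hc (k + 1) (by omega)) _ hp (by
      rw [h2] at h4
      rw [abs_lt] at h3 h4 ⊢
      constructor <;> linarith)
    rw [h2]
    linarith
  have hin : ∀ k, k₀ ≤ k → t k ∈ C := by
    intro k hk
    have h1 : ∀ j : ℕ, t (k + j) - c (k + j) = 2 ^ j * (t k - c k) := by
      intro j
      induction j with
      | zero => simp
      | succ j ih =>
        rw [← add_assoc, hstep (k + j) (by omega), ih, pow_succ]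
        ring
    have h2 : t k - c k = 0 := by
      by_contra hne
      have hpos : 0 < |t k - c k| := abs_pos.2 hne
      obtain ⟨j, hj⟩ := pow_unbounded_of_one_lt (ε / |t k - c k|) (show (1 : ℝ) < 2 by norm_num)
      rw [div_lt_iff₀ hpos] at hj
      have h3 := hcd (k + j) (by omega)
      rw [h1 j, abs_mul, abs_of_pos (by positivity)] at h3
      linarith
    rw [sub_eq_zero.1 h2]
    exact hc k hk
  have hninj : ¬ Function.Injective fun j : ℕ => t (k₀ + j) := by
    intro hinj
    exact (Set.infinite_range_of_injective hinj) (hfin.subset (by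
      rintro _ ⟨j, rfl⟩
      exact hin _ (by omega)))
  apply hninj
  intro i j hij
  have h1 := theta_inj (wild_iter hn _) (wild_iter hn _) hij
  have h2 := hn _ _ h1
  omega

theorem size_clusters {n : ℤ} (hn : Wild n) :
    {y : ℝ | MapClusterPt y atTop fun k : ℕ => |((T^[k] n : ℤ) : ℝ)| * D (T^[k] n)}.Infinite := by
  have h1 := theta_clusters hn
  have hlim : Tendsto (fun k : ℕ => |((T^[k] n : ℤ) : ℝ)| * D (T^[k] n) * (3 : ℝ) ^ theta (T^[k] n)) atTop
      (𝓝 (8 / Real.pi ^ 2)) := by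
    have h2 : Tendsto (fun k : ℕ => T^[k] n) atTop cofinite := by
      rw [← Nat.cofinite_eq_atTop]
      exact Function.Injective.tendsto_cofinite fun i j hij => hn i j hij
    exact size_tendsto.comp h2
  have hinj : Function.Injective fun c : ℝ => 8 / Real.pi ^ 2 * (3 : ℝ) ^ (-c) := by
    intro a b hab
    have h3 : (3 : ℝ) ^ (-a) = 3 ^ (-b) := by
      have : (0 : ℝ) < 8 / Real.pi ^ 2 := by positivity
      exact mul_left_cancel₀ this.ne' hab
    have h4 := congrArg Real.log h3
    rw [Real.log_rpow (by norm_num), Real.log_rpow (by norm_num)] at h4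
    have h5 : 0 < Real.log 3 := Real.log_pos (by norm_num)
    have h6 := mul_right_cancel₀ h5.ne' h4
    linarith
  refine (h1.image (hinj.injOn)).mono ?_
  rintro _ ⟨c, hc, rfl⟩
  rw [Set.mem_ofPred_eq, mapClusterPt_iff_ultrafilter] at hc ⊢
  obtain ⟨U, hU, hUt⟩ := hc
  refine ⟨U, hU, ?_⟩
  have h3 := hlim.mono_left hU
  have h4 : Tendsto (fun k : ℕ => (3 : ℝ) ^ (-theta (T^[k] n))) U (𝓝 ((3 : ℝ) ^ (-c))) :=
    (Real.continuous_const_rpow (by norm_num)).continuousAt.tendsto.comp hUt.neg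
  refine (h3.mul h4).congr fun k => ?_
  rw [mul_assoc, ← Real.rpow_add (by norm_num)]
  simp

end Pool.Agent.Q74.SZ
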