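import Pool.Agent.Q74.SZ.Theta

/-!
The size `|n| dist(n, J)` is asymptotic to `8/π² 3 ^ (-theta n)`.
-/

set_option autoImplicit false

open Filter Topology Metric Set

namespace Pool.Agent.Q74.SZ

open Pool.Agent.H384R2.Fatou Pool.Agent.H723R2.LSW Pool.Agent.Y282.WD

/-- the distance of the integer `n` to the Julia set -/
noncomputable def D (n : ℤ) : ℝ := infDist (n : ℂ) (FatouSet f₀)ᶜ

theorem J_nonempty : ((FatouSet f₀)ᶜ).Nonempty := by
  obtain ⟨x, h1, h2, h3⟩ := jul_all (m := 0) (by norm_num)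
  exact ⟨_, h3⟩

theorem D_ge {n : ℤ} {r : ℝ} (h : ball (n : ℂ) r ⊆ FatouSet f₀) : r ≤ D n := by
  unfold D
  rw [Metric.le_infDist J_nonempty]
  intro y hy
  by_contra hcon
  push Not at hcon
  exact hy (h (by rw [mem_ball, dist_comm]; exact hcon))

theorem D_le {n : ℤ} {r : ℝ} (h : ¬ ball (n : ℂ) r ⊆ FatouSet f₀) : D n ≤ r := by
  rw [Set.not_subset] at h
  obtain ⟨y, hy1, hy2⟩ := h
  rw [mem_ball, dist_comm] at hy1
  exact (Metric.infDist_le_dist_of_mem hy2).trans hy1.le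

theorem rho_pos (n : ℤ) : 0 < rho n := (Pool.Agent.Y151.WD.t_TAIL.2 n).1

theorem D_rho {ε : ℝ} (hε : 0 < ε) (hε1 : ε < 1) : ∃ N₀ : ℝ, ∀ n : ℤ, N₀ ≤ bt n →
    (1 - ε) * rho n ≤ D n ∧ D n ≤ (1 + ε) * rho n := by
  obtain ⟨N1, h1⟩ := outer_dist hε
  obtain ⟨N2, h2⟩ := inner_dist hε hε1
  exact ⟨max N1 N2, fun n hn => ⟨D_ge (h2 n ((le_max_right _ _).trans hn)),
    D_le (h1 n ((le_max_left _ _).trans hn))⟩⟩

theorem log_D_rho {ε : ℝ} (hε : 0 < ε) : ∃ N₀ : ℝ, ∀ n : ℤ, N₀ ≤ bt n →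
    0 < D n ∧ |Real.log (D n) - Real.log (rho n)| ≤ ε := by
  set η := min (1 / 2) (ε / 2) with hη
  have hη0 : 0 < η := lt_min (by norm_num) (by positivity)
  have hη1 : η ≤ 1 / 2 := min_le_left _ _
  have hη2 : η ≤ ε / 2 := min_le_right _ _
  obtain ⟨N₀, h⟩ := D_rho hη0 (by linarith)
  refine ⟨N₀, fun n hn => ?_⟩
  obtain ⟨h1, h2⟩ := h n hn
  have hr := rho_pos n
  have hD : (1 / 2) * rho n ≤ D n := by
    refine le_trans ?_ h1
    gcongr
    linarith
  have hD0 : 0 < D n := lt_of_lt_of_le (by positivity) hD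
  refine ⟨hD0, (log_diff hD0 hr).trans ?_⟩
  have h3 : |D n - rho n| ≤ η * rho n := by
    rw [abs_le]; constructor <;> linarith
  have h4 : (1 / 2) * rho n ≤ min (D n) (rho n) := le_min hD (by linarith)
  calc |D n - rho n| / min (D n) (rho n) ≤ (η * rho n) / ((1 / 2) * rho n) := by gcongr
    _ = 2 * η := by field_simp
    _ ≤ ε := by linarith

/-- the logarithm of `|n| dist (n, J)` -/
noncomputable def lg (n : ℤ) : ℝ := Real.log (|(n : ℝ)| * D n)

theorem size {ε : ℝ} (hε : 0 < ε) : ∃ N₀ : ℝ, ∀ n : ℤ, N₀ ≤ bt n →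
    0 < |(n : ℝ)| * D n ∧ |lg n - (Real.log (8 / Real.pi ^ 2) - theta n * Real.log 3)| ≤ ε := by
  obtain ⟨N1, h1⟩ := log_D_rho (show 0 < ε / 4 by positivity)
  obtain ⟨N2, h2⟩ := E_small (show 0 < ε / 4 by positivity)
  set X := max 1 (2 / ε) with hX
  have hX1 : 1 ≤ X := le_max_left _ _
  have hX2 : 2 / ε ≤ X := le_max_right _ _
  refine ⟨max (max N1 N2) (6 * X), fun n hn => ?_⟩
  obtain ⟨hD, hDr⟩ := h1 n (((le_max_left _ _).trans (le_max_left _ _)).trans hn)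
  have hE := h2 n (((le_max_right _ _).trans (le_max_left _ _)).trans hn)
  have hb : 2 * X ≤ |(n : ℝ) + 1 / 2| := bt_big (by linarith [(le_max_right _ _).trans hn])
  have hn1 : X ≤ |(n : ℝ)| := by
    have : |(n : ℝ) + 1 / 2| ≤ |(n : ℝ)| + 1 / 2 := by
      refine (abs_add_le _ _).trans ?_
      rw [abs_of_pos (by norm_num : (0 : ℝ) < 1 / 2)]
    linarith
  have hn0 : 0 < |(n : ℝ)| := by linarith
  have hn2 : 0 < |(n : ℝ) + 1 / 2| := by linarith
  refine ⟨by positivity, ?_⟩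
  have h3 : |(Real.log |(n : ℝ)| - Real.log |(n : ℝ) + 1 / 2|)| ≤ ε / 4 := by
    refine (log_diff hn0 hn2).trans ?_
    have h4 : |(|(n : ℝ)| - |(n : ℝ) + 1 / 2|)| ≤ 1 / 2 := by
      refine (abs_abs_sub_abs_le _ _).trans ?_
      rw [show (n : ℝ) - (n + 1 / 2) = -(1 / 2) by ring, abs_neg, abs_of_pos (by norm_num : (0 : ℝ) < 1 / 2)]
    have h5 : X ≤ min |(n : ℝ)| |(n : ℝ) + 1 / 2| := le_min hn1 (by linarith)
    have h6 : 0 < X := by linarith
    calc _ ≤ (1 / 2) / X := by gcongr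
      _ ≤ ε / 4 := by
        rw [div_le_iff₀ h6]
        rw [div_le_iff₀ hε] at hX2
        linarith
  have hrr := rho_pos n
  have hbt := bt_one n
  have e1 : E n = Real.log (Real.pi ^ 2 / 4) + Real.log |(n : ℝ) + 1 / 2| + Real.log (rho n) - Real.log 2 +
      theta n * Real.log 3 := by
    unfold E L
    rw [Real.log_mul (by positivity) hrr.ne']
    unfold bt
    rw [Real.log_mul (by positivity) hn2.ne']
  have e2 : Real.log (8 / Real.pi ^ 2) = Real.log 2 - Real.log (Real.pi ^ 2 / 4) := by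
    rw [← Real.log_div (by norm_num) (by positivity)]
    congr 1
    field_simp
    norm_num
  have e3 : lg n = Real.log |(n : ℝ)| + Real.log (D n) := Real.log_mul hn0.ne' hD.ne'
  rw [e2, e3]
  have e4 : Real.log |(n : ℝ)| + Real.log (D n) - (Real.log 2 - Real.log (Real.pi ^ 2 / 4) - theta n * Real.log 3) =
      (Real.log |(n : ℝ)| - Real.log |(n : ℝ) + 1 / 2|) + (Real.log (D n) - Real.log (rho n)) + E n := by
    rw [e1]; ring
  rw [e4]
  have h7 := abs_add_le ((Real.log |(n : ℝ)| - Real.log |(n : ℝ) + 1 / 2|) + (Real.log (D n) - Real.log (rho n))) (E n)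
  have h8 := abs_add_le (Real.log |(n : ℝ)| - Real.log |(n : ℝ) + 1 / 2|) (Real.log (D n) - Real.log (rho n))
  linarith

theorem bt_fin (B : ℝ) : {m : ℤ | ¬ B ≤ bt m}.Finite := by
  apply Set.Finite.subset (Set.finite_Icc (-⌈B + 1⌉) ⌈B + 1⌉)
  intro m hm
  have h1 : bt m < B := not_le.1 hm
  unfold bt at h1
  have h2 : |(m : ℝ) + 1 / 2| ≤ B := by
    have : (1 : ℝ) ≤ Real.pi ^ 2 / 4 := by nlinarith [Real.pi_gt_three]
    nlinarith [abs_nonneg ((m : ℝ) + 1 / 2)]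
  rw [abs_le] at h2
  constructor
  · have h3 : -((⌈B + 1⌉ : ℤ) : ℝ) ≤ (m : ℝ) := by
      have := Int.le_ceil (B + 1)
      linarith
    exact_mod_cast h3
  · have h3 : (m : ℝ) ≤ ((⌈B + 1⌉ : ℤ) : ℝ) := by
      have := Int.le_ceil (B + 1)
      linarith
    exact_mod_cast h3

theorem size_tendsto : Tendsto (fun n : ℤ => |(n : ℝ)| * D n * (3 : ℝ) ^ theta n) cofinite (𝓝 (8 / Real.pi ^ 2)) := by
  have h1 : Tendsto (fun n : ℤ => lg n + theta n * Real.log 3) cofinite (𝓝 (Real.log (8 / Real.pi ^ 2))) := by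
    rw [Metric.tendsto_nhds]
    intro ε hε
    obtain ⟨N₀, h⟩ := size (show 0 < ε / 2 by positivity)
    rw [Filter.eventually_cofinite]
    refine (bt_fin N₀).subset fun n hn => ?_
    intro hcon
    apply hn
    obtain ⟨-, h2⟩ := h n hcon
    rw [Real.dist_eq]
    have : lg n + theta n * Real.log 3 - Real.log (8 / Real.pi ^ 2) =
        lg n - (Real.log (8 / Real.pi ^ 2) - theta n * Real.log 3) := by ring
    rw [this]
    linarith
  have h2 := (Real.continuous_exp.tendsto _).comp h1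
  rw [Real.exp_log (by positivity)] at h2
  refine h2.congr' ?_
  obtain ⟨N₀, h⟩ := size (show (0 : ℝ) < 1 by norm_num)
  rw [Filter.EventuallyEq, Filter.eventually_cofinite]
  refine (bt_fin N₀).subset fun n hn => ?_
  intro hcon
  apply hn
  obtain ⟨h3, -⟩ := h n hcon
  simp only [Function.comp]
  unfold lg
  rw [Real.exp_add, Real.exp_log h3, Real.rpow_def_of_pos (by norm_num), mul_comm (theta n)]

end Pool.Agent.Q74.SZ
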