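import Pool.Agent.Q74.SZ.Dist

/-!
The parity expansion, and the asymptotic size of `|n + 1/2| dist(n, J)`.
-/

set_option autoImplicit false

open Filter Topology Metric Set

namespace Pool.Agent.Q74.SZ

open Pool.Agent.H384R2.Fatou Pool.Agent.H723R2.LSW Pool.Agent.Y282.WD

/-- the binary expansion whose digits are the parities of the trajectory -/
noncomputable def theta (n : ℤ) : ℝ := ∑' k : ℕ, ((T^[k] n % 2 : ℤ) : ℝ) / 2 ^ (k + 1)

theorem par_bd (m : ℤ) : (0 : ℝ) ≤ ((m % 2 : ℤ) : ℝ) ∧ ((m % 2 : ℤ) : ℝ) ≤ 1 := by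
  have h0 : 0 ≤ m % 2 := Int.emod_nonneg _ (by norm_num)
  have h1 : m % 2 ≤ 1 := by omega
  exact ⟨by exact_mod_cast h0, by exact_mod_cast h1⟩

theorem geo_summable : Summable fun k : ℕ => (1 : ℝ) / 2 ^ (k + 1) := by
  have h := (summable_geometric_two).mul_left (1 / 2)
  refine h.congr fun k => ?_
  rw [one_div_pow, pow_succ]; field_simp

theorem theta_summable (n : ℤ) : Summable fun k : ℕ => ((T^[k] n % 2 : ℤ) : ℝ) / 2 ^ (k + 1) := by
  refine Summable.of_nonneg_of_le (fun k => ?_) (fun k => ?_) geo_summable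
  · exact div_nonneg (par_bd _).1 (by positivity)
  · gcongr
    exact (par_bd _).2

theorem theta_rec (n : ℤ) : theta n = ((n % 2 : ℤ) : ℝ) / 2 + theta (T n) / 2 := by
  unfold theta
  rw [(theta_summable n).tsum_eq_zero_add]
  congr 1
  · simp
  · rw [← tsum_div_const]
    congr 1
    ext k
    rw [Function.iterate_succ_apply, div_div, pow_succ (2 : ℝ) (k + 1)]

theorem geo_tsum : ∑' k : ℕ, (1 : ℝ) / 2 ^ (k + 1) = 1 := by
  have h : ∀ k : ℕ, (1 : ℝ) / 2 ^ (k + 1) = (1 / 2) * (1 / 2) ^ k := by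
    intro k
    rw [one_div_pow, pow_succ]; field_simp
  simp_rw [h]
  rw [tsum_mul_left, tsum_geometric_two]
  norm_num

theorem theta_bd (n : ℤ) : 0 ≤ theta n ∧ theta n ≤ 1 := by
  constructor
  · exact tsum_nonneg fun k => div_nonneg (par_bd _).1 (by positivity)
  · rw [← geo_tsum]
    refine (theta_summable n).tsum_le_tsum (fun k => ?_) geo_summable
    gcongr
    exact (par_bd _).2

/-- the first `K` parities as an integer -/
def A : ℕ → ℤ → ℤ
  | 0, _ => 0
  | K + 1, m => (m % 2) * 2 ^ K + A K (T m)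

theorem A_bd (K : ℕ) (m : ℤ) : 0 ≤ A K m ∧ A K m < 2 ^ K := by
  induction K generalizing m with
  | zero => simp [A]
  | succ K ih =>
    obtain ⟨h1, h2⟩ := ih (T m)
    have h0 : 0 ≤ m % 2 := Int.emod_nonneg _ (by norm_num)
    have h3 : m % 2 ≤ 1 := by omega
    have h4 : (0 : ℤ) < 2 ^ K := by positivity
    simp only [A]
    rw [pow_succ]
    constructor
    · positivity
    · nlinarith

theorem A_inj (K : ℕ) (m n : ℤ) : A K m = A K n ↔ (2 : ℤ) ^ K ∣ m - n := by
  induction K generalizing m n with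
  | zero => simp [A]
  | succ K ih =>
    obtain ⟨h1, h2⟩ := A_bd K (T m)
    obtain ⟨h3, h4⟩ := A_bd K (T n)
    have hK : (0 : ℤ) < 2 ^ K := by positivity
    simp only [A]
    have hpar : ∀ x y : ℤ, x % 2 = y % 2 → ((2 : ℤ) ^ K ∣ T x - T y ↔ (2 : ℤ) ^ (K + 1) ∣ x - y) := by
      intro x y hxy
      rw [pow_succ]
      rcases Int.emod_two_eq_zero_or_one x with hx | hx
      · rw [hx] at hxy
        have e1 : x = 2 * T x := by
          have : T x = x / 2 := if_pos hx
          omega
        have e2 : y = 2 * T y := by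
          have : T y = y / 2 := if_pos hxy.symm
          omega
        have e3 : x - y = (T x - T y) * 2 := by omega
        rw [e3]
        exact (Int.mul_dvd_mul_iff_right (by norm_num)).symm
      · rw [hx] at hxy
        have e1 : 2 * T x = 3 * x + 1 := by
          have : T x = (3 * x + 1) / 2 := if_neg (by omega)
          omega
        have e2 : 2 * T y = 3 * y + 1 := by
          have : T y = (3 * y + 1) / 2 := if_neg (by omega)
          omega
        have e3 : 3 * (x - y) = (T x - T y) * 2 := by omega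
        rw [← Int.mul_dvd_mul_iff_right (a := 2) (by norm_num), ← e3]
        have hco : IsCoprime ((2 : ℤ) ^ K * 2) 3 := by
          rw [← pow_succ]
          exact IsCoprime.pow_left ⟨-1, 1, by norm_num⟩
        exact ⟨fun h => hco.dvd_of_dvd_mul_left h, fun h => h.mul_left 3⟩
    constructor
    · intro h
      have hm : m % 2 = n % 2 := by
        rcases Int.emod_two_eq_zero_or_one m with hx | hx <;>
          rcases Int.emod_two_eq_zero_or_one n with hy | hy <;> rw [hx, hy] at h ⊢
        · exfalso; omega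
        · exfalso; omega
      rw [← hpar m n hm, ← ih]
      rw [hm] at h
      omega
    · intro h
      have hm : m % 2 = n % 2 := by
        have : (2 : ℤ) ∣ m - n := dvd_trans ⟨2 ^ K, by rw [pow_succ]; ring⟩ h
        omega
      rw [hm, (ih (T m) (T n)).2 ((hpar m n hm).2 h)]

theorem theta_A (K : ℕ) (m : ℤ) : (A K m : ℝ) / 2 ^ K ≤ theta m ∧ theta m ≤ ((A K m : ℝ) + 1) / 2 ^ K := by
  induction K generalizing m with
  | zero => simpa [A] using theta_bd m
  | succ K ih =>
    obtain ⟨h1, h2⟩ := ih (T m)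
    rw [theta_rec m]
    have e : (A (K + 1) m : ℝ) = ((m % 2 : ℤ) : ℝ) * 2 ^ K + (A K (T m) : ℝ) := by
      simp only [A]
      push_cast
      ring
    rw [e]
    set p := ((m % 2 : ℤ) : ℝ) with hp
    have hK : (0 : ℝ) < 2 ^ K := by positivity
    rw [div_le_iff₀ hK] at h1
    rw [le_div_iff₀ hK] at h2
    rw [div_le_iff₀ (by positivity), le_div_iff₀ (by positivity), pow_succ]
    constructor
    · nlinarith
    · nlinarith

/-- `log (bt m rho m)` -/
noncomputable def L (m : ℤ) : ℝ := Real.log (bt m * rho m)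

theorem L_bd (m : ℤ) : |L m| ≤ 2 := by
  obtain ⟨h0, -, h1, h2⟩ := Pool.Agent.Y151.WD.t_TAIL.2 m
  have hb := bt_one m
  have hpos : 0 < bt m * rho m := by positivity
  have hl2 := Real.log_two_lt_d9
  unfold L
  rw [abs_le]
  constructor
  · have : Real.log (1 / 2) ≤ Real.log (bt m * rho m) := Real.log_le_log (by norm_num) (by linarith)
    rw [one_div, Real.log_inv] at this
    linarith
  · have h3 : Real.log (bt m * rho m) ≤ Real.log 4 := Real.log_le_log hpos (by linarith)
    have h4 : Real.log 4 = 2 * Real.log 2 := by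
      rw [show (4 : ℝ) = 2 ^ 2 by norm_num, Real.log_pow]; norm_num
    linarith

theorem L_rec (m : ℤ) : L m = (Real.log (bt m) - Real.log (bt (T m))) / 2 + L (T m) / 2 := by
  obtain ⟨h0, hT, h1, h2⟩ := Pool.Agent.Y151.WD.t_TAIL.2 m
  have hb := bt_one m
  have hbT := bt_one (T m)
  unfold L
  rw [hT, Real.log_mul (by positivity) h0.ne', Real.log_mul (by positivity) (by positivity),
    Real.log_mul (by positivity) (by positivity), Real.log_pow]
  push_cast
  ring

/-- the error term of one step -/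
noncomputable def er (m : ℤ) : ℝ :=
  Real.log (bt m) - Real.log (bt (T m)) - Real.log 2 + ((m % 2 : ℤ) : ℝ) * Real.log 3

/-- the deviation -/
noncomputable def E (m : ℤ) : ℝ := L m - Real.log 2 + theta m * Real.log 3

theorem E_rec (m : ℤ) : E m = er m / 2 + E (T m) / 2 := by
  unfold E er
  rw [L_rec m, theta_rec m]
  ring

theorem log3 : Real.log 3 ≤ 2 := by
  have h3 : Real.log 3 ≤ Real.log 4 := Real.log_le_log (by norm_num) (by norm_num)
  have h4 : Real.log 4 = 2 * Real.log 2 := by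
    rw [show (4 : ℝ) = 2 ^ 2 by norm_num, Real.log_pow]; norm_num
  have hl2 := Real.log_two_lt_d9
  linarith

theorem E_bd (m : ℤ) : |E m| ≤ 5 := by
  have h1 := abs_le.1 (L_bd m)
  obtain ⟨h2, h3⟩ := theta_bd m
  have hl2 := Real.log_two_lt_d9
  have hl2' := Real.log_two_gt_d9
  have h4 := log3
  have h5 : 0 ≤ Real.log 3 := Real.log_nonneg (by norm_num)
  unfold E
  rw [abs_le]
  constructor
  · nlinarith [mul_nonneg h2 h5]
  · nlinarith

theorem log_diff {a b : ℝ} (ha : 0 < a) (hb : 0 < b) : |Real.log a - Real.log b| ≤ |a - b| / min a b := by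
  rw [← Real.log_div ha.ne' hb.ne']
  have hm : 0 < min a b := lt_min ha hb
  rw [abs_le]
  constructor
  · have h1 := Real.one_sub_inv_le_log_of_pos (show 0 < a / b by positivity)
    rw [inv_div] at h1
    have h2 : b / a - 1 ≤ |a - b| / min a b := by
      have e : b / a - 1 = (b - a) / a := by field_simp
      rw [e]
      calc (b - a) / a ≤ |a - b| / a := by gcongr; rw [abs_sub_comm]; exact le_abs_self _
        _ ≤ |a - b| / min a b := by gcongr; exact min_le_left _ _
    linarith
  · have h1 := Real.log_le_sub_one_of_pos (show 0 < a / b by positivity)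
    have h2 : a / b - 1 ≤ |a - b| / min a b := by
      have e : a / b - 1 = (a - b) / b := by field_simp
      rw [e]
      calc (a - b) / b ≤ |a - b| / b := by gcongr; exact le_abs_self _
        _ ≤ |a - b| / min a b := by gcongr; exact min_le_right _ _
    linarith

theorem bt_big {m : ℤ} {X : ℝ} (h : 3 * X ≤ bt m) : X ≤ |(m : ℝ) + 1 / 2| := by
  unfold bt at h
  have h1 : Real.pi ^ 2 / 4 ≤ 3 := by
    have := Real.pi_lt_d2
    nlinarith [Real.pi_pos]
  have h2 := abs_nonneg ((m : ℝ) + 1 / 2)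
  nlinarith

theorem er_bd {X : ℝ} (hX : 1 ≤ X) {m : ℤ} (hm : 6 * X ≤ bt m) : |er m| ≤ 1 / X := by
  have h1 : 2 * X ≤ |(m : ℝ) + 1 / 2| := bt_big (by linarith)
  have hp : (0 : ℝ) < Real.pi ^ 2 / 4 := by positivity
  have key : ∀ t : ℝ, 1 / 2 ≤ t → t ≤ 1 →
      |(Real.log |(m : ℝ) + 1 / 2| - Real.log |(m : ℝ) + t|)| ≤ 1 / X := by
    intro t ht1 ht2
    have h2 : |(m : ℝ) + 1 / 2| ≤ |(m : ℝ) + t| + 1 / 2 := by
      have : (m : ℝ) + 1 / 2 = ((m : ℝ) + t) + (1 / 2 - t) := by ring
      rw [this]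
      refine (abs_add_le _ _).trans ?_
      have : |1 / 2 - t| ≤ 1 / 2 := by rw [abs_le]; constructor <;> linarith
      linarith
    have h3 : X ≤ |(m : ℝ) + t| := by linarith
    refine (log_diff (by linarith) (by linarith)).trans ?_
    have h4 : |(|(m : ℝ) + 1 / 2| - |(m : ℝ) + t|)| ≤ 1 / 2 := by
      refine (abs_abs_sub_abs_le _ _).trans ?_
      rw [show (m : ℝ) + 1 / 2 - (m + t) = 1 / 2 - t by ring, abs_le]
      constructor <;> linarith
    have h5 : X ≤ min |(m : ℝ) + 1 / 2| |(m : ℝ) + t| := le_min (by linarith) h3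
    have h6 : 0 < X := by linarith
    calc _ ≤ (1 / 2) / X := by gcongr
      _ ≤ 1 / X := by gcongr; norm_num
  have hmpos : 0 < |(m : ℝ) + 1 / 2| := by linarith
  unfold er bt
  rcases Int.emod_two_eq_zero_or_one m with h | h
  · have hT : ((T m : ℤ) : ℝ) = (m : ℝ) / 2 := by
      have e : T m = m / 2 := if_pos h
      have e2 : m = 2 * T m := by omega
      have e3 : (m : ℝ) = 2 * ((T m : ℤ) : ℝ) := by exact_mod_cast e2
      linarith
    have h2 := key 1 (by norm_num) le_rfl
    have h3 : 0 < |(m : ℝ) + 1| := by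
      have : |(m : ℝ) + 1 / 2| ≤ |(m : ℝ) + 1| + 1 / 2 := by
        have : (m : ℝ) + 1 / 2 = ((m : ℝ) + 1) + (-(1 / 2)) := by ring
        rw [this]
        refine (abs_add_le _ _).trans ?_
        rw [abs_neg, abs_of_pos (by norm_num : (0 : ℝ) < 1 / 2)]
      linarith
    rw [hT, h, show (m : ℝ) / 2 + 1 / 2 = ((m : ℝ) + 1) / 2 by ring, abs_div,
      abs_of_pos (by norm_num : (0 : ℝ) < 2), Real.log_mul hp.ne' hmpos.ne',
      Real.log_mul hp.ne' (by positivity), Real.log_div h3.ne' (by norm_num)]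
    convert h2 using 2
    push_cast
    ring
  · have hT : ((T m : ℤ) : ℝ) = (3 * (m : ℝ) + 1) / 2 := by
      have e : T m = (3 * m + 1) / 2 := if_neg (by omega)
      have e2 : 2 * T m = 3 * m + 1 := by omega
      have e3 : 2 * ((T m : ℤ) : ℝ) = 3 * (m : ℝ) + 1 := by exact_mod_cast e2
      linarith
    have h2 := key (2 / 3) (by norm_num) (by norm_num)
    have h3 : 0 < |(m : ℝ) + 2 / 3| := by
      have : |(m : ℝ) + 1 / 2| ≤ |(m : ℝ) + 2 / 3| + 1 / 2 := by
        have : (m : ℝ) + 1 / 2 = ((m : ℝ) + 2 / 3) + (-(1 / 6)) := by ring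
        rw [this]
        refine (abs_add_le _ _).trans ?_
        rw [abs_neg, abs_of_pos (by norm_num : (0 : ℝ) < 1 / 6)]
        linarith
      linarith
    rw [hT, h, show (3 * (m : ℝ) + 1) / 2 + 1 / 2 = ((m : ℝ) + 2 / 3) * (3 / 2) by ring, abs_mul,
      abs_of_pos (by norm_num : (0 : ℝ) < 3 / 2), Real.log_mul hp.ne' hmpos.ne',
      Real.log_mul hp.ne' (by positivity), Real.log_mul h3.ne' (by norm_num)]
    have h32 : Real.log (3 / 2) = Real.log 3 - Real.log 2 := Real.log_div (by norm_num) (by norm_num)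
    rw [h32]
    convert h2 using 2
    push_cast
    ring

theorem E_small {ε : ℝ} (hε : 0 < ε) : ∃ N₀ : ℝ, ∀ n : ℤ, N₀ ≤ bt n → |E n| ≤ ε := by
  have claim : ∀ J : ℕ, ∀ Y : ℝ, 0 < Y → ∀ n : ℤ, 3 ^ J * Y ≤ bt n → ∀ η : ℝ,
      (∀ m : ℤ, Y ≤ bt m → |er m| ≤ η) → |E n| ≤ 5 / 2 ^ J + η := by
    intro J Y hY
    induction J with
    | zero =>
      intro n hn η hη
      have h1 := E_bd n
      have h2 := (abs_nonneg _).trans (hη n (by simpa using hn))
      simp
      linarith
    | succ J ih =>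
      intro n hn η hη
      have h1 := bt_T_ge n
      have h2 : (1 : ℝ) ≤ 3 ^ (J + 1) := one_le_pow₀ (by norm_num)
      have h3 := hη n (by nlinarith)
      have h4 := ih (T n) (by rw [pow_succ] at hn; linarith) η hη
      rw [E_rec n]
      have h5 : |er n / 2 + E (T n) / 2| ≤ |er n| / 2 + |E (T n)| / 2 := by
        refine (abs_add_le _ _).trans (le_of_eq ?_)
        rw [abs_div, abs_div, abs_of_pos (by norm_num : (0 : ℝ) < 2)]
      have h6 : 5 / 2 ^ (J + 1) = (5 / 2 ^ J : ℝ) / 2 := by rw [pow_succ]; field_simp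
      rw [h6]
      linarith
  obtain ⟨J, hJ⟩ := pow_unbounded_of_one_lt (10 / ε) (show (1 : ℝ) < 2 by norm_num)
  set X := max 1 (2 / ε) with hX
  have hX1 : 1 ≤ X := le_max_left _ _
  have hX2 : 2 / ε ≤ X := le_max_right _ _
  refine ⟨3 ^ J * (6 * X), fun n hn => ?_⟩
  have h1 := claim J (6 * X) (by positivity) n hn (1 / X) fun m hm => er_bd hX1 hm
  have h2 : 5 / 2 ^ J ≤ ε / 2 := by
    rw [div_le_iff₀ (by positivity)]
    rw [div_lt_iff₀ hε] at hJ
    nlinarith
  have h3 : 1 / X ≤ ε / 2 := by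
    rw [div_le_iff₀ (by positivity)]
    rw [div_le_iff₀ hε] at hX2
    linarith
  linarith

end Pool.Agent.Q74.SZ
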